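import Mathlib

set_option autoImplicit false

/-!
# Betti numbers of ideals of a polynomial ring, by Koszul homology

For an ideal `J` of `S = K[x_1,...,x_n]`, `Tor_i^S(J, K)` is the homology in degree `i` of the Koszul
complex `K(x_1,...,x_n) ⊗ J`. Its elements are written as families `c_T` of elements of `J`
indexed by the subsets `T` of the set of variables: `c_T` is the coefficient of the exterior
monomial `e_T`.
-/

namespace Pool.Agent.R690.Kos

open Finset MvPolynomial

variable {n : ℕ}

/-- The ideal of `K[x_1,...,x_n]` generated by the monomials whose exponent vector is in `G`. -/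
noncomputable def monIdeal (K : Type*) [Field K] (G : Set (Fin n →₀ ℕ)) :
    Ideal (MvPolynomial (Fin n) K) :=
  Ideal.span ((fun u => monomial u (1 : K)) '' G)

/-- The exponent vector of the product of the variables in `T`; it is the multidegree of the
exterior monomial `e_T`. -/
noncomputable def eT (T : Finset (Fin n)) : Fin n →₀ ℕ := ∑ t ∈ T, Finsupp.single t 1

/-- The Koszul differential, sending `c e_{t_1} ∧ ... ∧ e_{t_i}` (with `t_1 < ... < t_i`) to
`∑_j (-1)^(j-1) x_{t_j} c e_{t_1} ∧ ... (omit e_{t_j}) ... ∧ e_{t_i}`. -/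
noncomputable def kosD (K : Type*) [Field K] (n : ℕ) :
    (Finset (Fin n) → MvPolynomial (Fin n) K) →ₗ[K] (Finset (Fin n) → MvPolynomial (Fin n) K) where
  toFun c := fun T => ∑ t ∈ univ \ T, (-1) ^ (T.filter (· < t)).card * X t * c (insert t T)
  map_add' b c := by
    funext T
    simp only [Pi.add_apply, mul_add, Finset.sum_add_distrib]
  map_smul' a c := by
    funext T
    simp only [Pi.smul_apply, RingHom.id_apply, Finset.smul_sum, mul_smul_comm]

variable {K : Type*} [Field K]

/-- The elements `∑ c_T e_T` of homological degree `i` of the Koszul complex of `J` all of whose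
multidegrees lie in `A`: the coefficients `c_T` lie in `J`, they vanish unless `T` has `i` elements,
and for each exponent `u` occurring in `c_T` the multidegree `u + e_T` is in `A`. -/
noncomputable def chains (J : Ideal (MvPolynomial (Fin n) K)) (i : ℕ) (A : Set (Fin n →₀ ℕ)) :
    Submodule K (Finset (Fin n) → MvPolynomial (Fin n) K) where
  carrier := {c | ∀ T, c T ∈ J ∧ (T.card ≠ i → c T = 0) ∧ ∀ u ∈ (c T).support, u + eT T ∈ A}
  add_mem' := by
    intro b c hb hc T
    refine ⟨J.add_mem (hb T).1 (hc T).1, fun h => ?_, fun u hu => ?_⟩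
    · rw [Pi.add_apply, (hb T).2.1 h, (hc T).2.1 h, add_zero]
    · rcases Finset.mem_union.1 (MvPolynomial.support_add hu) with h | h
      · exact (hb T).2.2 u h
      · exact (hc T).2.2 u h
  zero_mem' := by
    intro T
    exact ⟨J.zero_mem, fun _ => rfl, fun u hu => by simp at hu⟩
  smul_mem' := by
    intro a c hc T
    refine ⟨?_, fun h => ?_, fun u hu => (hc T).2.2 u (MvPolynomial.support_smul hu)⟩
    · rw [Pi.smul_apply, MvPolynomial.smul_eq_C_mul]
      exact J.mul_mem_left _ (hc T).1
    · rw [Pi.smul_apply, (hc T).2.1 h, smul_zero]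

/-- The cycles of homological degree `i` with multidegrees in `A`. -/
noncomputable def cycles (J : Ideal (MvPolynomial (Fin n) K)) (i : ℕ) (A : Set (Fin n →₀ ℕ)) :
    Submodule K (Finset (Fin n) → MvPolynomial (Fin n) K) :=
  chains J i A ⊓ LinearMap.ker (kosD K n)

/-- The boundaries of homological degree `i` with multidegrees in `A`. -/
noncomputable def boundaries (J : Ideal (MvPolynomial (Fin n) K)) (i : ℕ)
    (A : Set (Fin n →₀ ℕ)) : Submodule K (Finset (Fin n) → MvPolynomial (Fin n) K) :=
  (chains J (i + 1) A).map (kosD K n)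

/-- The dimension over `K` of the part of `Tor_i^S(J, K)` with multidegrees in `A`. -/
noncomputable def bettiIn (J : Ideal (MvPolynomial (Fin n) K)) (i : ℕ) (A : Set (Fin n →₀ ℕ)) : ℕ :=
  Module.finrank K (↥(cycles J i A) ⧸ (boundaries J i A).submoduleOf (cycles J i A))

/-- The total Betti number `β_i(J) = dim_K Tor_i^S(J, K)`. -/
noncomputable def betti (J : Ideal (MvPolynomial (Fin n) K)) (i : ℕ) : ℕ :=
  bettiIn J i Set.univ

/-- The graded Betti number `β_{i,j}(J) = dim_K Tor_i^S(J, K)_j` for the standard grading. -/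
noncomputable def gradedBetti (J : Ideal (MvPolynomial (Fin n) K)) (i j : ℕ) : ℕ :=
  bettiIn J i {a | ∑ k, a k = j}

end Pool.Agent.R690.Kos
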