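import Pool.Agent.R690.Kos.Rk
import Pool.Agent.R690.Kos.Defs

set_option autoImplicit false

/-!
# Betti numbers of monomial ideals through simplicial complexes
-/

namespace Pool.Agent.R690.Kos

open Finset MvPolynomial

variable {n : ℕ}

theorem eT_apply (T : Finset (Fin n)) (k : Fin n) : eT T k = if k ∈ T then 1 else 0 := by
  simp only [eT, Finsupp.coe_finsetSum, Finset.sum_apply, Finsupp.single_apply]
  rw [Finset.sum_ite_eq']

theorem eT_empty : eT (∅ : Finset (Fin n)) = 0 := by simp [eT]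

theorem eT_mono {S T : Finset (Fin n)} (h : S ⊆ T) : eT S ≤ eT T := by
  intro k
  rw [eT_apply, eT_apply]
  by_cases hS : k ∈ S
  · rw [if_pos hS, if_pos (h hS)]
  · rw [if_neg hS]; exact Nat.zero_le _

/-- The faces of the upper Koszul complex in multidegree `a`. -/
def Fc (G : Set (Fin n →₀ ℕ)) (a : Fin n →₀ ℕ) (T : Finset (Fin n)) : Prop :=
  ∃ g ∈ G, g + eT T ≤ a

theorem Fc_down (G : Set (Fin n →₀ ℕ)) (a : Fin n →₀ ℕ) : Down (Fc G a) := by
  rintro S T ⟨g, hg, h⟩ hST
  exact ⟨g, hg, (add_le_add_right (eT_mono hST) g).trans h⟩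

variable {K : Type*} [Field K]

theorem mem_monIdeal {G : Set (Fin n →₀ ℕ)} {f : MvPolynomial (Fin n) K} :
    f ∈ monIdeal K G ↔ ∀ u ∈ f.support, ∃ g ∈ G, g ≤ u := by
  rw [monIdeal, MvPolynomial.mem_ideal_span_monomial_image]

theorem monomial_mem {G : Set (Fin n →₀ ℕ)} {u : Fin n →₀ ℕ} {c : K} :
    monomial u c ∈ monIdeal K G ↔ c ≠ 0 → ∃ g ∈ G, g ≤ u := by
  classical
  rw [mem_monIdeal]
  constructor
  · intro h hc
    exact h u (by rw [MvPolynomial.support_monomial, if_neg hc]; simp)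
  · intro h v hv
    rw [MvPolynomial.support_monomial] at hv
    split_ifs at hv with hc
    · simp at hv
    · rw [Finset.mem_singleton] at hv
      rw [hv]; exact h hc

variable (K)

/-- The strand element with scalars `z`. -/
noncomputable def ph (a : Fin n →₀ ℕ) :
    (Finset (Fin n) → K) →ₗ[K] (Finset (Fin n) → MvPolynomial (Fin n) K) where
  toFun z := fun T => monomial (a - eT T) (z T)
  map_add' y z := by funext T; simp
  map_smul' c z := by funext T; simp [MvPolynomial.smul_monomial]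

theorem ph_apply (a : Fin n →₀ ℕ) (z : Finset (Fin n) → K) (T : Finset (Fin n)) :
    ph K a z T = monomial (a - eT T) (z T) := rfl

theorem ph_inj (a : Fin n →₀ ℕ) : Function.Injective (ph K a) := by
  rw [injective_iff_map_eq_zero]
  intro z hz
  funext T
  have := congrFun hz T
  rw [ph_apply, Pi.zero_apply, MvPolynomial.monomial_eq_zero] at this
  exact this

variable {K}

theorem kosD_apply (c : Finset (Fin n) → MvPolynomial (Fin n) K) (T : Finset (Fin n)) :
    kosD K n c T = ∑ t ∈ univ \ T, (-1) ^ (T.filter (· < t)).card * X t * c (insert t T) := rfl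

theorem kosD_ph {a : Fin n →₀ ℕ} {z : Finset (Fin n) → K} (hz : ∀ T, z T ≠ 0 → eT T ≤ a) :
    kosD K n (ph K a z) = ph K a (bd K n z) := by
  funext T
  rw [kosD_apply, ph_apply, bd_apply, map_sum]
  refine Finset.sum_congr rfl fun t ht => ?_
  have htT : t ∉ T := by simpa using ht
  rw [ph_apply]
  by_cases h0 : z (insert t T) = 0
  · rw [h0]; simp
  · have h1 := hz _ h0
    have h2 : a - eT T = Finsupp.single t 1 + (a - eT (insert t T)) := by
      ext k
      have h3 := h1 k
      simp only [Finsupp.coe_tsub, Pi.sub_apply, Finsupp.coe_add, Pi.add_apply, eT_apply,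
        Finsupp.single_apply, mem_insert] at h3 ⊢
      by_cases hk : k = t
      · subst hk; simp [htT] at h3 ⊢; omega
      · have hk' : t ≠ k := fun h => hk h.symm
        simp [hk, hk']
    have h4 : ((-1 : MvPolynomial (Fin n) K)) ^ (T.filter (· < t)).card =
        monomial 0 ((-1 : K) ^ (T.filter (· < t)).card) := by
      rw [← MvPolynomial.C_apply, map_pow, map_neg, map_one]
    rw [h4, show (X t : MvPolynomial (Fin n) K) = monomial (Finsupp.single t 1) 1 from rfl,
      MvPolynomial.monomial_mul, MvPolynomial.monomial_mul, zero_add, mul_one, ← h2, ep]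

theorem le_of_Fc {G : Set (Fin n →₀ ℕ)} {a : Fin n →₀ ℕ} {i : ℕ} {z : Finset (Fin n) → K}
    (hz : z ∈ sc K (Fc G a) i) (T : Finset (Fin n)) (hT : z T ≠ 0) : eT T ≤ a := by
  obtain ⟨g, _, h⟩ := (hz T hT).1
  exact (self_le_add_left _ _).trans h

theorem chains_singleton (G : Set (Fin n →₀ ℕ)) (i : ℕ) (a : Fin n →₀ ℕ) :
    chains (monIdeal K G) i {a} = (sc K (Fc G a) i).map (ph K a) := by
  classical
  ext c
  constructor
  · intro hc
    have h4 : ∀ T, ¬ eT T ≤ a → c T = 0 := by
      intro T hT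
      by_contra h
      obtain ⟨u, hu⟩ := MvPolynomial.support_nonempty.2 h
      refine hT ?_
      have h5 : u + eT T = a := (hc T).2.2 u hu
      rw [← h5]
      exact self_le_add_left _ _
    have h5 : ∀ T, eT T ≤ a → c T = monomial (a - eT T) (coeff (a - eT T) (c T)) := by
      intro T hT
      ext u
      rw [MvPolynomial.coeff_monomial]
      split_ifs with h
      · rw [h]
      · by_contra h6
        have h7 : u + eT T = a := (hc T).2.2 u (MvPolynomial.mem_support_iff.2 h6)
        exact h (by rw [← h7, add_tsub_cancel_right])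
    refine ⟨fun T => if eT T ≤ a then coeff (a - eT T) (c T) else 0, ?_, ?_⟩
    · intro T hT
      beta_reduce at hT
      split_ifs at hT with h
      · refine ⟨?_, ?_⟩
        · have h6 := (hc T).1
          rw [h5 T h, monomial_mem] at h6
          obtain ⟨s, hs, hs'⟩ := h6 hT
          refine ⟨s, hs, ?_⟩
          calc s + eT T ≤ (a - eT T) + eT T := add_le_add_left hs' _
            _ = a := tsub_add_cancel_of_le h
        · by_contra h6
          rw [(hc T).2.1 h6] at hT
          simp at hT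
      · exact absurd rfl hT
    · funext T
      rw [ph_apply]
      split_ifs with h
      · exact (h5 T h).symm
      · rw [h4 T h]; simp
  · rintro ⟨z, hz, rfl⟩ T
    have hle := le_of_Fc hz
    refine ⟨?_, ?_, ?_⟩
    · rw [ph_apply, monomial_mem]
      intro h
      obtain ⟨⟨g, hg, hg'⟩, -⟩ := hz T h
      exact ⟨g, hg, le_tsub_of_add_le_right hg'⟩
    · intro hT
      have : z T = 0 := by
        by_contra h
        exact hT (hz T h).2
      rw [ph_apply, this, MvPolynomial.monomial_zero]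
    · intro u hu
      rw [ph_apply, MvPolynomial.support_monomial] at hu
      split_ifs at hu with hc
      · simp at hu
      · rw [Finset.mem_singleton] at hu
        rw [hu]
        exact tsub_add_cancel_of_le (hle T hc)

theorem cycles_singleton (G : Set (Fin n →₀ ℕ)) (i : ℕ) (a : Fin n →₀ ℕ) :
    cycles (monIdeal K G) i {a} = (sc K (Fc G a) i ⊓ LinearMap.ker (bd K n)).map (ph K a) := by
  rw [cycles, chains_singleton]
  ext c
  constructor
  · rintro ⟨⟨z, hz, rfl⟩, h⟩
    refine ⟨z, ⟨hz, ?_⟩, rfl⟩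
    rw [SetLike.mem_coe, LinearMap.mem_ker, kosD_ph (le_of_Fc hz)] at h
    rw [SetLike.mem_coe, LinearMap.mem_ker]
    exact ph_inj K a (by rw [h, map_zero])
  · rintro ⟨z, ⟨hz, h⟩, rfl⟩
    refine ⟨⟨z, hz, rfl⟩, ?_⟩
    rw [SetLike.mem_coe, LinearMap.mem_ker] at h ⊢
    rw [kosD_ph (le_of_Fc hz), h, map_zero]

theorem boundaries_singleton (G : Set (Fin n →₀ ℕ)) (i : ℕ) (a : Fin n →₀ ℕ) :
    boundaries (monIdeal K G) i {a} = ((sc K (Fc G a) (i + 1)).map (bd K n)).map (ph K a) := by
  rw [boundaries, chains_singleton]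
  ext c
  constructor
  · rintro ⟨_, ⟨z, hz, rfl⟩, rfl⟩
    exact ⟨_, ⟨z, hz, rfl⟩, (kosD_ph (le_of_Fc hz)).symm⟩
  · rintro ⟨_, ⟨z, hz, rfl⟩, rfl⟩
    exact ⟨_, ⟨z, hz, rfl⟩, kosD_ph (le_of_Fc hz)⟩

theorem boundaries_le_singleton (G : Set (Fin n →₀ ℕ)) (i : ℕ) (a : Fin n →₀ ℕ) :
    boundaries (monIdeal K G) i {a} ≤ cycles (monIdeal K G) i {a} := by
  rw [boundaries_singleton, cycles_singleton]
  apply Submodule.map_mono
  rintro _ ⟨z, hz, rfl⟩
  exact ⟨bd_mem (Fc_down G a) hz, by rw [SetLike.mem_coe, LinearMap.mem_ker, bd_bd]⟩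

theorem finite_cycles (G : Set (Fin n →₀ ℕ)) (i : ℕ) (a : Fin n →₀ ℕ) :
    Module.Finite K ↥(cycles (monIdeal K G) i {a}) := by
  rw [cycles_singleton]
  infer_instance

theorem finrank_cycles_singleton (G : Set (Fin n →₀ ℕ)) (i : ℕ) (a : Fin n →₀ ℕ) :
    Module.finrank K ↥(cycles (monIdeal K G) i {a}) =
      Module.finrank K ↥(sc K (Fc G a) i ⊓ LinearMap.ker (bd K n)) := by
  rw [cycles_singleton]
  exact (LinearEquiv.finrank_eq (Submodule.equivMapOfInjective (ph K a) (ph_inj K a) _)).symm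

theorem finrank_boundaries_singleton (G : Set (Fin n →₀ ℕ)) (i : ℕ) (a : Fin n →₀ ℕ) :
    Module.finrank K ↥(boundaries (monIdeal K G) i {a}) = rk K (Fc G a) (i + 1) := by
  rw [boundaries_singleton]
  exact (LinearEquiv.finrank_eq (Submodule.equivMapOfInjective (ph K a) (ph_inj K a) _)).symm

theorem bettiIn_singleton (G : Set (Fin n →₀ ℕ)) (i : ℕ) (a : Fin n →₀ ℕ) :
    bettiIn (monIdeal K G) i {a} = hm K (Fc G a) i := by
  have hf := finite_cycles (K := K) G i a
  rw [bettiIn, hm, ← finrank_cycles_singleton, ← finrank_boundaries_singleton]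
  have h1 := Submodule.finrank_quotient_add_finrank
    ((boundaries (monIdeal K G) i {a}).submoduleOf (cycles (monIdeal K G) i {a}))
  have h2 := LinearEquiv.finrank_eq
    (Submodule.submoduleOfEquivOfLe (boundaries_le_singleton (K := K) G i a))
  omega

theorem cycles_le_of_hm {G : Set (Fin n →₀ ℕ)} {i : ℕ} {a : Fin n →₀ ℕ}
    (h : hm K (Fc G a) i = 0) :
    cycles (monIdeal K G) i {a} ≤ boundaries (monIdeal K G) i {a} := by
  rw [boundaries_singleton, cycles_singleton, exact_of_hm K (Fc_down G a) h]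

/-! ### Decomposition into multidegrees -/

variable (K)

open Classical in
/-- Projection to the multidegree `a`. -/
noncomputable def pj (a : Fin n →₀ ℕ) :
    (Finset (Fin n) → MvPolynomial (Fin n) K) →ₗ[K] (Finset (Fin n) → MvPolynomial (Fin n) K) where
  toFun c := fun T => if eT T ≤ a then monomial (a - eT T) (coeff (a - eT T) (c T)) else 0
  map_add' b c := by
    funext T
    by_cases h : eT T ≤ a <;> simp [h]
  map_smul' r c := by
    funext T
    by_cases h : eT T ≤ a <;> simp [h, MvPolynomial.smul_monomial]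

variable {K}

theorem pj_pos {a : Fin n →₀ ℕ} {T : Finset (Fin n)} (h : eT T ≤ a)
    (c : Finset (Fin n) → MvPolynomial (Fin n) K) :
    pj K a c T = monomial (a - eT T) (coeff (a - eT T) (c T)) := by
  simp only [pj, LinearMap.coe_mk, AddHom.coe_mk]
  rw [if_pos h]

theorem pj_neg {a : Fin n →₀ ℕ} {T : Finset (Fin n)} (h : ¬ eT T ≤ a)
    (c : Finset (Fin n) → MvPolynomial (Fin n) K) : pj K a c T = 0 := by
  simp only [pj, LinearMap.coe_mk, AddHom.coe_mk]
  rw [if_neg h]

theorem coeff_pj (a : Fin n →₀ ℕ) (T : Finset (Fin n))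
    (c : Finset (Fin n) → MvPolynomial (Fin n) K) (u : Fin n →₀ ℕ) [Decidable (u + eT T = a)] :
    coeff u (pj K a c T) = if u + eT T = a then coeff u (c T) else 0 := by
  classical
  by_cases h : eT T ≤ a
  · rw [pj_pos h, MvPolynomial.coeff_monomial]
    by_cases h2 : u + eT T = a
    · have h3 : a - eT T = u := by rw [← h2, add_tsub_cancel_right]
      rw [if_pos h3, if_pos h2, h3]
    · rw [if_neg h2, if_neg]
      intro h3
      exact h2 (by rw [← h3, tsub_add_cancel_of_le h])
  · rw [pj_neg h, MvPolynomial.coeff_zero, if_neg]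
    intro h2
    exact h (by rw [← h2]; exact self_le_add_left _ _)

theorem pj_mem {G : Set (Fin n →₀ ℕ)} {i : ℕ} {A : Set (Fin n →₀ ℕ)} (a : Fin n →₀ ℕ)
    {c : Finset (Fin n) → MvPolynomial (Fin n) K} (hc : c ∈ chains (monIdeal K G) i A) :
    pj K a c ∈ chains (monIdeal K G) i {a} := by
  classical
  intro T
  refine ⟨?_, ?_, ?_⟩
  · rw [mem_monIdeal]
    intro u hu
    rw [MvPolynomial.mem_support_iff, coeff_pj] at hu
    split_ifs at hu with h
    · exact mem_monIdeal.1 (hc T).1 u (MvPolynomial.mem_support_iff.2 hu)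
    · exact absurd rfl hu
  · intro h
    ext u
    rw [coeff_pj, (hc T).2.1 h]
    simp
  · intro u hu
    rw [MvPolynomial.mem_support_iff, coeff_pj] at hu
    split_ifs at hu with h
    · exact h
    · exact absurd rfl hu

theorem eT_insert {T : Finset (Fin n)} {t : Fin n} (h : t ∉ T) :
    eT (insert t T) = Finsupp.single t 1 + eT T := by
  rw [eT, Finset.sum_insert h, eT]

theorem coeff_kos_term (k : ℕ) (x : Fin n) (f : MvPolynomial (Fin n) K) (u : Fin n →₀ ℕ) :
    coeff u ((-1) ^ k * X x * f) =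
      (-1) ^ k * (if x ∈ u.support then coeff (u - Finsupp.single x 1) f else 0) := by
  have h : ((-1 : MvPolynomial (Fin n) K)) ^ k = C ((-1 : K) ^ k) := by
    rw [map_pow, map_neg, map_one]
  rw [h, mul_assoc, MvPolynomial.coeff_C_mul, MvPolynomial.coeff_X_mul']

theorem kosD_pj (a : Fin n →₀ ℕ) (c : Finset (Fin n) → MvPolynomial (Fin n) K) :
    kosD K n (pj K a c) = pj K a (kosD K n c) := by
  classical
  funext T
  ext u
  rw [coeff_pj, kosD_apply, kosD_apply, MvPolynomial.coeff_sum, MvPolynomial.coeff_sum]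
  have key : ∀ x ∈ univ \ T, coeff u ((-1) ^ (T.filter (· < x)).card * X x *
      (pj K a c) (insert x T)) = if u + eT T = a then
        coeff u ((-1) ^ (T.filter (· < x)).card * X x * c (insert x T)) else 0 := by
    intro x hx
    have hxT : x ∉ T := by simpa using hx
    rw [coeff_kos_term, coeff_kos_term, coeff_pj]
    by_cases h1 : x ∈ u.support
    · have h2 : u - Finsupp.single x 1 + eT (insert x T) = u + eT T := by
        rw [eT_insert hxT, ← add_assoc, tsub_add_cancel_of_le]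
        rw [Finsupp.single_le_iff]
        exact Nat.one_le_iff_ne_zero.2 (Finsupp.mem_support_iff.1 h1)
      rw [if_pos h1, if_pos h1, h2]
      split_ifs <;> simp
    · rw [if_neg h1, if_neg h1]; simp
  rw [Finset.sum_congr rfl key]
  split_ifs <;> simp

theorem pj_mem_cycles {G : Set (Fin n →₀ ℕ)} {i : ℕ} {A : Set (Fin n →₀ ℕ)} (a : Fin n →₀ ℕ)
    {c : Finset (Fin n) → MvPolynomial (Fin n) K} (hc : c ∈ cycles (monIdeal K G) i A) :
    pj K a c ∈ cycles (monIdeal K G) i {a} := by
  refine ⟨pj_mem a hc.1, ?_⟩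
  have h : kosD K n c = 0 := hc.2
  rw [SetLike.mem_coe, LinearMap.mem_ker, kosD_pj, h, map_zero]

theorem pj_mem_boundaries {G : Set (Fin n →₀ ℕ)} {i : ℕ} {A : Set (Fin n →₀ ℕ)} (a : Fin n →₀ ℕ)
    {c : Finset (Fin n) → MvPolynomial (Fin n) K} (hc : c ∈ boundaries (monIdeal K G) i A) :
    pj K a c ∈ boundaries (monIdeal K G) i {a} := by
  obtain ⟨b, hb, rfl⟩ := hc
  exact ⟨pj K a b, pj_mem a hb, kosD_pj a b⟩

theorem chains_mono (J : Ideal (MvPolynomial (Fin n) K)) (i : ℕ) {A B : Set (Fin n →₀ ℕ)}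
    (h : A ⊆ B) : chains J i A ≤ chains J i B :=
  fun _ hc T => ⟨(hc T).1, (hc T).2.1, fun u hu => h ((hc T).2.2 u hu)⟩

theorem cycles_mono (J : Ideal (MvPolynomial (Fin n) K)) (i : ℕ) {A B : Set (Fin n →₀ ℕ)}
    (h : A ⊆ B) : cycles J i A ≤ cycles J i B :=
  inf_le_inf_right _ (chains_mono J i h)

theorem boundaries_mono (J : Ideal (MvPolynomial (Fin n) K)) (i : ℕ) {A B : Set (Fin n →₀ ℕ)}
    (h : A ⊆ B) : boundaries J i A ≤ boundaries J i B :=
  Submodule.map_mono (chains_mono J (i + 1) h)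

/-- The multidegrees of a family. -/
noncomputable def md (c : Finset (Fin n) → MvPolynomial (Fin n) K) : Finset (Fin n →₀ ℕ) :=
  letI := Classical.decEq (Fin n →₀ ℕ)
  univ.biUnion fun T => (c T).support.image fun u => u + eT T

theorem mem_md {c : Finset (Fin n) → MvPolynomial (Fin n) K} {a : Fin n →₀ ℕ} :
    a ∈ md c ↔ ∃ T, ∃ u ∈ (c T).support, u + eT T = a := by
  simp only [md, mem_biUnion, mem_univ, true_and, mem_image]

theorem sum_pj (c : Finset (Fin n) → MvPolynomial (Fin n) K) : ∑ a ∈ md c, pj K a c = c := by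
  classical
  funext T
  ext u
  rw [Finset.sum_apply, MvPolynomial.coeff_sum]
  simp only [coeff_pj]
  rw [Finset.sum_ite_eq]
  split_ifs with h
  · rfl
  · by_contra h2
    exact h (mem_md.2 ⟨T, u, MvPolynomial.mem_support_iff.2 (Ne.symm h2), rfl⟩)

theorem pj_self {a : Fin n →₀ ℕ} {G : Set (Fin n →₀ ℕ)} {i : ℕ}
    {c : Finset (Fin n) → MvPolynomial (Fin n) K} (hc : c ∈ chains (monIdeal K G) i {a}) :
    pj K a c = c := by
  classical
  funext T
  ext u
  rw [coeff_pj]
  split_ifs with h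
  · rfl
  · by_contra h2
    exact h ((hc T).2.2 u (MvPolynomial.mem_support_iff.2 (Ne.symm h2)))

theorem pj_ne {a b : Fin n →₀ ℕ} (hab : a ≠ b) {G : Set (Fin n →₀ ℕ)} {i : ℕ}
    {c : Finset (Fin n) → MvPolynomial (Fin n) K} (hc : c ∈ chains (monIdeal K G) i {a}) :
    pj K b c = 0 := by
  classical
  funext T
  ext u
  rw [coeff_pj]
  split_ifs with h
  · by_contra h2
    have := (hc T).2.2 u (MvPolynomial.mem_support_iff.2 h2)
    exact hab (this.symm.trans h)
  · rfl

theorem pi_aux {V : Type*} [AddCommGroup V] [Module K V] {ι : Type*} [Fintype ι] {W : ι → Type*}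
    [∀ a, AddCommGroup (W a)] [∀ a, Module K (W a)] [∀ a, Module.Finite K (W a)]
    (f : ∀ a, V →ₗ[K] W a) (hs : ∀ y : ∀ a, W a, ∃ c, ∀ a, f a c = y a) (N : Submodule K V)
    (hN : ∀ c, c ∈ N ↔ ∀ a, f a c = 0) :
    Module.finrank K (V ⧸ N) = ∑ a, Module.finrank K (W a) := by
  have hsurj : Function.Surjective (LinearMap.pi f) := by
    intro y
    obtain ⟨c, hc⟩ := hs y
    exact ⟨c, funext hc⟩
  have hker : LinearMap.ker (LinearMap.pi f) = N := by
    ext c
    rw [LinearMap.mem_ker, hN]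
    exact ⟨fun h a => congrFun h a, fun h => funext h⟩
  have h2 := LinearEquiv.finrank_eq ((LinearMap.pi f).quotKerEquivOfSurjective hsurj)
  rw [hker, Module.finrank_pi_fintype] at h2
  exact h2

variable (K) in
/-- The homology in one multidegree. -/
def Hq (G : Set (Fin n →₀ ℕ)) (i : ℕ) (a : Fin n →₀ ℕ) : Type _ :=
  ↥(cycles (monIdeal K G) i {a}) ⧸
    (boundaries (monIdeal K G) i {a}).submoduleOf (cycles (monIdeal K G) i {a})

noncomputable instance (G : Set (Fin n →₀ ℕ)) (i : ℕ) (a : Fin n →₀ ℕ) :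
    AddCommGroup (Hq K G i a) :=
  inferInstanceAs (AddCommGroup (↥(cycles (monIdeal K G) i {a}) ⧸
    (boundaries (monIdeal K G) i {a}).submoduleOf (cycles (monIdeal K G) i {a})))

noncomputable instance (G : Set (Fin n →₀ ℕ)) (i : ℕ) (a : Fin n →₀ ℕ) :
    Module K (Hq K G i a) :=
  inferInstanceAs (Module K (↥(cycles (monIdeal K G) i {a}) ⧸
    (boundaries (monIdeal K G) i {a}).submoduleOf (cycles (monIdeal K G) i {a})))

instance (G : Set (Fin n →₀ ℕ)) (i : ℕ) (a : Fin n →₀ ℕ) : Module.Finite K (Hq K G i a) := by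
  have := finite_cycles (K := K) G i a
  exact inferInstanceAs (Module.Finite K (↥(cycles (monIdeal K G) i {a}) ⧸
    (boundaries (monIdeal K G) i {a}).submoduleOf (cycles (monIdeal K G) i {a})))

theorem finrank_Hq (G : Set (Fin n →₀ ℕ)) (i : ℕ) (a : Fin n →₀ ℕ) :
    Module.finrank K (Hq K G i a) = hm K (Fc G a) i := bettiIn_singleton G i a

/-- The class of a cycle. -/
noncomputable def hqm (G : Set (Fin n →₀ ℕ)) (i : ℕ) (a : Fin n →₀ ℕ) :
    ↥(cycles (monIdeal K G) i {a}) →ₗ[K] Hq K G i a :=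
  Submodule.mkQ ((boundaries (monIdeal K G) i {a}).submoduleOf (cycles (monIdeal K G) i {a}))

theorem hqm_surj (G : Set (Fin n →₀ ℕ)) (i : ℕ) (a : Fin n →₀ ℕ) :
    Function.Surjective (hqm (K := K) G i a) := Submodule.mkQ_surjective _

theorem hqm_eq_zero (G : Set (Fin n →₀ ℕ)) (i : ℕ) (a : Fin n →₀ ℕ)
    (c : ↥(cycles (monIdeal K G) i {a})) :
    hqm (K := K) G i a c = 0 ↔ c.1 ∈ boundaries (monIdeal K G) i {a} := by
  have h := Submodule.Quotient.mk_eq_zero
    ((boundaries (monIdeal K G) i {a}).submoduleOf (cycles (monIdeal K G) i {a})) (x := c)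
  exact h

/-- Projection of cycles to one multidegree. -/
noncomputable def pc (G : Set (Fin n →₀ ℕ)) (i : ℕ) (A : Set (Fin n →₀ ℕ)) (a : Fin n →₀ ℕ) :
    ↥(cycles (monIdeal K G) i A) →ₗ[K] ↥(cycles (monIdeal K G) i {a}) :=
  (pj K a).restrict fun _ hc => pj_mem_cycles a hc

theorem pc_coe (G : Set (Fin n →₀ ℕ)) (i : ℕ) (A : Set (Fin n →₀ ℕ)) (a : Fin n →₀ ℕ)
    (c : ↥(cycles (monIdeal K G) i A)) : (pc G i A a c).1 = pj K a c.1 := rfl

/-- Betti numbers are sums over multidegrees. -/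
theorem bettiIn_eq_sum {G : Set (Fin n →₀ ℕ)} {i : ℕ} {A : Set (Fin n →₀ ℕ)}
    {F : Finset (Fin n →₀ ℕ)} (hF : ∀ a ∈ F, a ∈ A)
    (h0 : ∀ a ∈ A, a ∉ F → hm K (Fc G a) i = 0) :
    bettiIn (monIdeal K G) i A = ∑ a ∈ F, hm K (Fc G a) i := by
  classical
  have h := pi_aux (ι := F) (W := fun a : F => Hq K G i a.1)
    (fun a : F => (hqm G i a.1).comp (pc G i A a.1)) ?_
    ((boundaries (monIdeal K G) i A).submoduleOf (cycles (monIdeal K G) i A)) ?_
  · have h4 : ∑ a : F, Module.finrank K (Hq K G i a.1) = ∑ a ∈ F, hm K (Fc G a) i := by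
      rw [← Finset.sum_coe_sort F (fun a => hm K (Fc G a) i)]
      apply Finset.sum_congr rfl
      intro a _
      exact finrank_Hq G i a.1
    exact Eq.trans h h4
  · intro y
    choose c hc using fun a : F => hqm_surj (K := K) G i a.1 (y a)
    have hsum : ∑ a : F, (c a).1 ∈ cycles (monIdeal K G) i A := by
      refine Submodule.sum_mem _ ?_
      intro a _
      exact cycles_mono _ i (Set.singleton_subset_iff.2 (hF a.1 a.2)) (c a).2
    refine ⟨⟨∑ a : F, (c a).1, hsum⟩, ?_⟩
    intro a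
    rw [← hc a, LinearMap.comp_apply]
    congr 1
    apply Subtype.ext
    rw [pc_coe, map_sum, Finset.sum_eq_single a]
    · exact pj_self (c a).2.1
    · intro b _ hba
      exact pj_ne (fun h => hba (Subtype.ext h)) (c b).2.1
    · intro h; exact absurd (mem_univ a) h
  · intro c
    have h3 : ∀ a : F, ((hqm G i a.1).comp (pc G i A a.1)) c = 0 ↔
        pj K a.1 c.1 ∈ boundaries (monIdeal K G) i {a.1} := by
      intro a
      rw [LinearMap.comp_apply, hqm_eq_zero, pc_coe]
    constructor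
    · intro h a
      rw [h3 a]
      exact pj_mem_boundaries a.1 h
    · intro h
      show c.1 ∈ boundaries (monIdeal K G) i A
      rw [← sum_pj c.1]
      refine Submodule.sum_mem _ fun a ha => ?_
      have haA : a ∈ A := by
        obtain ⟨T, u, hu, rfl⟩ := mem_md.1 ha
        exact (c.2.1 T).2.2 u hu
      refine boundaries_mono _ i (Set.singleton_subset_iff.2 haA) ?_
      by_cases haF : a ∈ F
      · exact (h3 ⟨a, haF⟩).1 (h ⟨a, haF⟩)
      · exact cycles_le_of_hm (h0 a haA haF) (pj_mem_cycles a c.2)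

/-- Multidegrees exceeding all generators in some coordinate do not contribute. -/
theorem hm_of_big {G : Set (Fin n →₀ ℕ)} {a : Fin n →₀ ℕ} (j : Fin n) (h : ∀ g ∈ G, g j < a j)
    (i : ℕ) : hm K (Fc G a) i = 0 := by
  refine hm_cone K j ?_ i
  rintro T ⟨g, hg, hle⟩
  by_cases hj : j ∈ T
  · rw [Finset.insert_eq_of_mem hj]; exact ⟨g, hg, hle⟩
  · refine ⟨g, hg, fun k => ?_⟩
    have h1 := hle k
    rw [Finsupp.coe_add, Pi.add_apply, eT_apply] at h1 ⊢
    by_cases hk : k = j
    · subst hk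
      have := h g hg
      rw [if_pos (Finset.mem_insert_self _ _)]
      omega
    · have h2 : (k ∈ insert j T) ↔ k ∈ T := by rw [Finset.mem_insert, or_iff_right hk]
      simp only [h2]; exact h1

end Pool.Agent.R690.Kos
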