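import Pool.Agent.R690.Kos.Fin

set_option autoImplicit false

/-!
# Certificates for lower bounds of ranks over all fields
-/

namespace Pool.Agent.R690.Kos

open Finset

variable {n : ℕ}

/-- The incidence number of `S` in the boundary of `T`. -/
def co (S T : Finset (Fin n)) : ℤ :=
  ∑ t ∈ univ \ S, if insert t S = T then (-1) ^ (S.filter (· < t)).card else 0

theorem bd_single (S T : Finset (Fin n)) : bd ℤ n (Pi.single T 1) S = co S T := by
  rw [bd_apply, co]
  refine Finset.sum_congr rfl fun t _ => ?_
  by_cases h : insert t S = T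
  · rw [h, if_pos rfl, Pi.single_eq_same, mul_one, ep]
  · rw [if_neg h, Pi.single_eq_of_ne h, mul_zero]

/-- Evaluation of a functional (a list of sets with integer coefficients) at the boundary of `T`. -/
def ev (f : List (Finset (Fin n) × ℤ)) (T : Finset (Fin n)) : ℤ :=
  (f.map fun q => q.2 * co q.1 T).sum

/-- The functional over the field `K`. -/
def fl (K : Type*) [Field K] : List (Finset (Fin n) × ℤ) → ((Finset (Fin n) → K) →ₗ[K] K)
  | [] => 0
  | q :: f => (q.2 : K) • LinearMap.proj q.1 + fl K f

theorem fl_bd (K : Type*) [Field K] (f : List (Finset (Fin n) × ℤ)) (T : Finset (Fin n)) :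
    fl K f (bd K n (Pi.single T 1)) = (ev f T : K) := by
  have h : bd K n (Pi.single T 1) = fun S => ((co S T : ℤ) : K) := by
    rw [← cv_single K T, ← cv_bd]
    funext S
    rw [cv, bd_single]
  rw [h]
  induction f with
  | nil => simp [fl, ev]
  | cons q f ih =>
    rw [fl, LinearMap.add_apply, ih]
    simp [ev]

theorem le_finrank_of_cert (K : Type*) [Field K] :
    ∀ L : List (List (Finset (Fin n) × ℤ) × Finset (Fin n)),
      L.Pairwise (fun p q => ev p.1 q.2 = 0) → (∀ p ∈ L, ((ev p.1 p.2 : ℤ) : K) ≠ 0) →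
      L.length ≤ Module.finrank K (Submodule.span K
        {v : Finset (Fin n) → K | ∃ p ∈ L, v = bd K n (Pi.single p.2 1)}) := by
  intro L
  induction L with
  | nil => intro _ _; exact Nat.zero_le _
  | cons p L ih =>
    intro h1 h2
    rw [List.pairwise_cons] at h1
    have h3 := ih h1.2 fun q hq => h2 q (List.mem_cons_of_mem p hq)
    rw [List.length_cons]
    refine Nat.succ_le_of_lt (lt_of_le_of_lt h3 (Submodule.finrank_lt_finrank_of_lt ?_))
    rw [SetLike.lt_iff_le_and_exists]
    refine ⟨Submodule.span_mono ?_, bd K n (Pi.single p.2 1),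
      Submodule.subset_span ⟨p, List.mem_cons_self, rfl⟩, ?_⟩
    · rintro v ⟨q, hq, rfl⟩
      exact ⟨q, List.mem_cons_of_mem p hq, rfl⟩
    · intro hmem
      have h4 : Submodule.span K
          {v : Finset (Fin n) → K | ∃ p ∈ L, v = bd K n (Pi.single p.2 1)} ≤
          LinearMap.ker (fl K p.1) := by
        rw [Submodule.span_le]
        rintro v ⟨q, hq, rfl⟩
        rw [SetLike.mem_coe, LinearMap.mem_ker, fl_bd, h1.1 q hq, Int.cast_zero]
      have h5 := h4 hmem
      rw [LinearMap.mem_ker, fl_bd] at h5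
      exact h2 p List.mem_cons_self h5

/-- A triangular certificate bounds the rank from below. -/
theorem rk_ge_of_cert (K : Type*) [Field K] {P : Finset (Fin n) → Prop} {i : ℕ}
    (L : List (List (Finset (Fin n) × ℤ) × Finset (Fin n)))
    (h1 : L.Pairwise (fun p q => ev p.1 q.2 = 0)) (h2 : ∀ p ∈ L, ((ev p.1 p.2 : ℤ) : K) ≠ 0)
    (h3 : ∀ p ∈ L, P p.2 ∧ p.2.card = i) : L.length ≤ rk K P i := by
  refine (le_finrank_of_cert K L h1 h2).trans (Submodule.finrank_mono ?_)
  rw [Submodule.span_le]
  rintro v ⟨p, hp, rfl⟩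
  refine ⟨_, ?_, rfl⟩
  intro S hS
  by_cases h : S = p.2
  · rw [h]; exact h3 p hp
  · exact absurd (Pi.single_eq_of_ne h 1) hS

/-- The rank of the boundary on vertices. -/
theorem rk_one (K : Type*) [Field K] {P : Finset (Fin n) → Prop} (hP : Down P) :
    (∃ v, P {v}) → rk K P 1 = 1 := by
  rintro ⟨v, hv⟩
  apply le_antisymm
  · have h1 := hm_add K hP 0
    have h2 : nf P 0 ≤ 1 := by
      rw [nf]
      have : Subsingleton {T : Finset (Fin n) // P T ∧ T.card = 0} := by
        refine ⟨fun S T => Subtype.ext ?_⟩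
        rw [Finset.card_eq_zero.1 S.2.2, Finset.card_eq_zero.1 T.2.2]
      exact Finite.card_le_one_iff_subsingleton.2 this
    rw [zero_add] at h1
    omega
  · have h0 : ev [((∅ : Finset (Fin n)), (1 : ℤ))] {v} = 1 := by
      simp only [ev, List.map_cons, List.map_nil, List.sum_cons, List.sum_nil, co, one_mul,
        add_zero, sdiff_empty, filter_empty, card_empty, pow_zero]
      rw [Finset.sum_eq_single v]
      · simp
      · intro t _ ht
        rw [if_neg]
        intro h
        rw [insert_empty_eq, Finset.singleton_inj] at h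
        exact ht h
      · intro h; exact absurd (Finset.mem_univ v) h
    have := rk_ge_of_cert K (P := P) (i := 1) [([((∅ : Finset (Fin n)), (1 : ℤ))], {v})]
      (by simp) (by
        intro p hp
        rw [List.mem_singleton] at hp
        rw [hp, h0]; simp) (by
        intro p hp
        rw [List.mem_singleton] at hp
        rw [hp]; exact ⟨hv, by simp⟩)
    simpa using this

theorem rk_of_nf (K : Type*) [Field K] {P : Finset (Fin n) → Prop} {i : ℕ} (h : nf P i = 0) :
    rk K P i = 0 := by
  have := rk_le_nf K P i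
  omega

theorem nf_eq_zero {P : Finset (Fin n) → Prop} {i : ℕ} (h : ∀ T, P T → T.card ≠ i) :
    nf P i = 0 := by
  rw [nf]
  have : IsEmpty {T : Finset (Fin n) // P T ∧ T.card = i} := ⟨fun T => h T.1 T.2.1 T.2.2⟩
  exact Nat.card_of_isEmpty

/-- Families of sets containing a member of `F`. -/
def Xof (F : Finset (Finset (Fin n))) (W : Finset (Fin n)) : Prop := ∃ T ∈ F, T ⊆ W

instance (F : Finset (Finset (Fin n))) (W : Finset (Fin n)) : Decidable (Xof F W) :=
  inferInstanceAs (Decidable (∃ T ∈ F, T ⊆ W))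

/-- The complex of the subsets `T` of `W` whose complement in `W` contains a member of `F`. -/
def Lk (F : Finset (Finset (Fin n))) (W T : Finset (Fin n)) : Prop := T ⊆ W ∧ Xof F (W \ T)

instance (F : Finset (Finset (Fin n))) (W T : Finset (Fin n)) : Decidable (Lk F W T) :=
  inferInstanceAs (Decidable (_ ∧ _))

theorem Xof.mono {F : Finset (Finset (Fin n))} {V W : Finset (Fin n)} (h : Xof F V) (hVW : V ⊆ W) :
    Xof F W := by
  obtain ⟨T, hT, hTV⟩ := h
  exact ⟨T, hT, hTV.trans hVW⟩

theorem Lk_down (F : Finset (Finset (Fin n))) (W : Finset (Fin n)) : Down (Lk F W) := by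
  rintro S T ⟨h1, h2⟩ hST
  exact ⟨hST.trans h1, h2.mono (Finset.sdiff_subset_sdiff (subset_refl W) hST)⟩

/-- The simplex is acyclic. -/
theorem hm_simplex (K : Type*) [Field K] {F : Finset (Finset (Fin n))} (hF : ∅ ∈ F)
    (W : Finset (Fin n)) (i : ℕ) (h : W.Nonempty ∨ 0 < i) : hm K (Lk F W) i = 0 := by
  rcases W.eq_empty_or_nonempty with hW | ⟨v, hv⟩
  · have hi : 0 < i := h.resolve_left (by rw [hW]; simp)
    have h1 := hm_add K (Lk_down F W) i
    have h2 : nf (Lk F W) i = 0 := by
      refine nf_eq_zero fun T hT => ?_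
      have h3 := hT.1
      rw [hW, Finset.subset_empty] at h3
      rw [h3, Finset.card_empty]; omega
    omega
  · refine hm_cone K v ?_ i
    rintro T ⟨h1, h2⟩
    exact ⟨Finset.insert_subset hv h1, ∅, hF, Finset.empty_subset _⟩

theorem nf_eq_card {P : Finset (Fin n) → Prop} [DecidablePred P] (i : ℕ) :
    nf P i = ((univ : Finset (Finset (Fin n))).filter fun T => P T ∧ T.card = i).card := by
  rw [nf, Nat.card_eq_fintype_card, Fintype.card_subtype]

end Pool.Agent.R690.Kos
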