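import Pool.Agent.R690.Kos.Lin

set_option autoImplicit false

/-!
# Simplicial chains as families of scalars indexed by finite sets
-/

namespace Pool.Agent.R690.Kos

open Finset

variable {n : ℕ}

/-- The sign of `t` relative to `T`. -/
def ep (R : Type*) [CommRing R] (t : Fin n) (T : Finset (Fin n)) : R :=
  (-1) ^ (T.filter (· < t)).card

/-- The simplicial boundary. -/
def bd (R : Type*) [CommRing R] (n : ℕ) : (Finset (Fin n) → R) →ₗ[R] (Finset (Fin n) → R) where
  toFun z := fun T => ∑ t ∈ univ \ T, ep R t T * z (insert t T)
  map_add' y z := by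
    funext T
    simp only [Pi.add_apply, mul_add, Finset.sum_add_distrib]
  map_smul' c z := by
    funext T
    simp only [Pi.smul_apply, smul_eq_mul, RingHom.id_apply, Finset.mul_sum]
    exact Finset.sum_congr rfl fun t _ => by ring

theorem bd_apply (R : Type*) [CommRing R] (z : Finset (Fin n) → R) (T : Finset (Fin n)) :
    bd R n z T = ∑ t ∈ univ \ T, ep R t T * z (insert t T) := rfl

theorem ep_mul_self (R : Type*) [CommRing R] (t : Fin n) (T : Finset (Fin n)) :
    ep R t T * ep R t T = 1 := by
  rw [ep, ← mul_pow]; simp

theorem ep_insert_of_lt (R : Type*) [CommRing R] {s t : Fin n} {T : Finset (Fin n)} (h : t < s)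
    (ht : t ∉ T) : ep R s (insert t T) = - ep R s T := by
  have h1 : (insert t T).filter (· < s) = insert t (T.filter (· < s)) := by
    rw [Finset.filter_insert, if_pos h]
  rw [ep, ep, h1, Finset.card_insert_of_notMem (by simp [ht]), pow_succ]
  ring

theorem ep_insert_of_gt (R : Type*) [CommRing R] {s t : Fin n} {T : Finset (Fin n)} (h : ¬ t < s) :
    ep R s (insert t T) = ep R s T := by
  rw [ep, ep, Finset.filter_insert, if_neg h]

theorem ep_swap (R : Type*) [CommRing R] {s t : Fin n} {T : Finset (Fin n)} (hs : s ∉ T)
    (ht : t ∉ T) (hst : s ≠ t) :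
    ep R s T * ep R t (insert s T) = - (ep R t T * ep R s (insert t T)) := by
  rcases lt_or_gt_of_ne hst with h | h
  · rw [ep_insert_of_lt R h hs, ep_insert_of_gt R (not_lt.2 h.le)]; ring
  · rw [ep_insert_of_lt R h ht, ep_insert_of_gt R (not_lt.2 h.le)]; ring

theorem bd_bd (R : Type*) [CommRing R] (z : Finset (Fin n) → R) : bd R n (bd R n z) = 0 := by
  funext T
  rw [bd_apply, Pi.zero_apply]
  have h1 : ∀ t ∈ univ \ T, ep R t T * bd R n z (insert t T) =
      ∑ s ∈ univ \ T, if s = t then 0 else
        ep R t T * (ep R s (insert t T) * z (insert s (insert t T))) := by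
    intro t ht
    have ht' : t ∉ T := by simpa using ht
    rw [bd_apply, Finset.mul_sum]
    have h2 : (univ \ T : Finset (Fin n)) = insert t (univ \ insert t T) := by
      ext j
      simp only [mem_sdiff, mem_univ, true_and, mem_insert]
      constructor
      · intro h
        by_cases hj : j = t
        · exact Or.inl hj
        · exact Or.inr (by rintro (h' | h') <;> contradiction)
      · rintro (h | h)
        · rw [h]; exact ht'
        · exact fun h' => h (Or.inr h')
    rw [h2, Finset.sum_insert (by simp), if_pos rfl, zero_add]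
    refine Finset.sum_congr rfl fun s hs => ?_
    rw [if_neg]
    rintro rfl
    simp at hs
  rw [Finset.sum_congr rfl h1, ← Finset.sum_product']
  refine Finset.sum_involution (fun p _ => p.swap) ?_ ?_ ?_ ?_
  · rintro ⟨t, s⟩ hp
    rw [mem_product] at hp
    have ht' : t ∉ T := by simpa using hp.1
    have hs' : s ∉ T := by simpa using hp.2
    simp only [Prod.fst_swap, Prod.snd_swap]
    by_cases hst : s = t
    · subst hst; simp
    · rw [if_neg hst, if_neg (Ne.symm hst), ← mul_assoc, ← mul_assoc,
        ep_swap R ht' hs' (Ne.symm hst), Finset.insert_comm]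
      ring
  · rintro ⟨t, s⟩ _ hne heq
    simp only [Prod.swap_prod_mk, Prod.mk.injEq] at heq
    rw [if_pos heq.1] at hne
    exact hne rfl
  · rintro ⟨t, s⟩ hp
    rw [mem_product] at hp ⊢
    exact ⟨hp.2, hp.1⟩
  · rintro ⟨t, s⟩ _
    rfl

/-- The cone operator with apex `v`. -/
def up (R : Type*) [CommRing R] (v : Fin n) (z : Finset (Fin n) → R) (T : Finset (Fin n)) : R :=
  if v ∈ T then ep R v (T.erase v) * z (T.erase v) else 0

theorem bd_up (R : Type*) [CommRing R] (v : Fin n) (z : Finset (Fin n) → R) :
    bd R n (up R v z) + up R v (bd R n z) = z := by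
  funext T
  rw [Pi.add_apply, bd_apply]
  by_cases hv : v ∈ T
  · -- `T = insert v S`
    obtain ⟨S, hS, rfl⟩ : ∃ S, v ∉ S ∧ T = insert v S :=
      ⟨T.erase v, Finset.notMem_erase v T, (Finset.insert_erase hv).symm⟩
    have h1 : up R v (bd R n z) (insert v S) = ep R v S * ∑ t ∈ univ \ S, ep R t S * z (insert t S) := by
      rw [up, if_pos (Finset.mem_insert_self v S), Finset.erase_insert hS, bd_apply]
    have h2 : (univ \ S : Finset (Fin n)) = insert v (univ \ insert v S) := by
      ext j
      simp only [mem_sdiff, mem_univ, true_and, mem_insert]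
      constructor
      · intro h
        by_cases hj : j = v
        · exact Or.inl hj
        · exact Or.inr (by rintro (h' | h') <;> contradiction)
      · rintro (h | h)
        · rw [h]; exact hS
        · exact fun h' => h (Or.inr h')
    rw [h1, h2, Finset.sum_insert (by simp), mul_add, ← mul_assoc, ep_mul_self, one_mul,
      Finset.mul_sum]
    have h3 : ∀ t ∈ univ \ insert v S, ep R t (insert v S) * up R v z (insert t (insert v S)) =
        - (ep R v S * (ep R t S * z (insert t S))) := by
      intro t ht
      simp only [mem_sdiff, mem_univ, mem_insert, not_or, true_and] at ht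
      rw [Finset.insert_comm, up, if_pos (Finset.mem_insert_self _ _),
        Finset.erase_insert (by simp only [mem_insert, not_or]; exact ⟨Ne.symm ht.1, hS⟩),
        ← mul_assoc, ← mul_assoc, ← neg_mul]
      congr 1
      have := ep_swap R ht.2 hS ht.1
      have h4 : ep R t S * ep R t S = 1 := ep_mul_self R t S
      have h5 : ep R v S * ep R v S = 1 := ep_mul_self R v S
      calc ep R t (insert v S) * ep R v (insert t S)
          = (ep R t S * ep R t S) * (ep R t (insert v S) * ep R v (insert t S)) := by
            rw [h4, one_mul]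
        _ = ep R t S * ep R t (insert v S) * (ep R t S * ep R v (insert t S)) := by ring
        _ = ep R t S * ep R t (insert v S) * (-(ep R v S * ep R t (insert v S))) := by rw [this]
        _ = - (ep R v S * ep R t S) * (ep R t (insert v S) * ep R t (insert v S)) := by ring
        _ = - (ep R v S * ep R t S) := by rw [ep_mul_self, mul_one]
    rw [Finset.sum_congr rfl h3, Finset.sum_neg_distrib]
    ring
  · have h1 : up R v (bd R n z) T = 0 := by rw [up, if_neg hv]
    rw [h1, add_zero, Finset.sum_eq_single v]
    · rw [up, if_pos (Finset.mem_insert_self v T), Finset.erase_insert hv, ← mul_assoc,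
        ep_mul_self, one_mul]
    · intro t _ htv
      rw [up, if_neg, mul_zero]
      simp only [mem_insert, not_or]
      exact ⟨Ne.symm htv, hv⟩
    · intro h
      simp at h
      exact absurd h hv

section Field

variable (K : Type*) [Field K]

/-- Chains of degree `i` supported on `P`. -/
def sc (P : Finset (Fin n) → Prop) (i : ℕ) : Submodule K (Finset (Fin n) → K) where
  carrier := {z | ∀ T, z T ≠ 0 → P T ∧ T.card = i}
  add_mem' := by
    intro y z hy hz T hT
    by_cases h : y T = 0
    · refine hz T ?_
      rintro h'
      exact hT (by rw [Pi.add_apply, h, h', add_zero])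
    · exact hy T h
  zero_mem' := by intro T hT; exact absurd rfl hT
  smul_mem' := by
    intro c z hz T hT
    refine hz T ?_
    intro h
    exact hT (by rw [Pi.smul_apply, h, smul_zero])

variable {K}

theorem mem_sc {P : Finset (Fin n) → Prop} {i : ℕ} {z : Finset (Fin n) → K} :
    z ∈ sc K P i ↔ ∀ T, z T ≠ 0 → P T ∧ T.card = i := Iff.rfl

/-- `P` is closed under taking subsets. -/
def Down (P : Finset (Fin n) → Prop) : Prop := ∀ S T, P T → S ⊆ T → P S

theorem bd_mem {P : Finset (Fin n) → Prop} (hP : Down P) {i : ℕ} {z : Finset (Fin n) → K}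
    (hz : z ∈ sc K P (i + 1)) : bd K n z ∈ sc K P i := by
  intro T hT
  rw [bd_apply] at hT
  obtain ⟨t, ht, h⟩ := Finset.exists_ne_zero_of_sum_ne_zero hT
  have h1 := hz _ (right_ne_zero_of_mul h)
  have ht' : t ∉ T := by simpa using ht
  rw [Finset.card_insert_of_notMem ht'] at h1
  exact ⟨hP _ _ h1.1 (Finset.subset_insert t T), by omega⟩

variable (K)

/-- The rank of the boundary on chains of degree `i`. -/
noncomputable def rk (P : Finset (Fin n) → Prop) (i : ℕ) : ℕ :=
  Module.finrank K ↥((sc K P i).map (bd K n))

/-- The number of faces with `i` elements. -/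
noncomputable def nf (P : Finset (Fin n) → Prop) (i : ℕ) : ℕ :=
  Nat.card {T : Finset (Fin n) // P T ∧ T.card = i}

/-- The dimension of the homology in degree `i`. -/
noncomputable def hm (P : Finset (Fin n) → Prop) (i : ℕ) : ℕ :=
  Module.finrank K ↥(sc K P i ⊓ LinearMap.ker (bd K n)) - rk K P (i + 1)

/-- Chains on faces as a function space. -/
noncomputable def scEquiv (P : Finset (Fin n) → Prop) (i : ℕ) :
    ({T : Finset (Fin n) // P T ∧ T.card = i} → K) ≃ₗ[K] ↥(sc K P i) := by
  classical
  exact
  { toFun := fun f => ⟨fun T => if h : P T ∧ T.card = i then f ⟨T, h⟩ else 0, by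
      intro T hT
      by_contra h
      exact hT (dif_neg h)⟩
    map_add' := by
      intro f g
      ext T
      by_cases h : P T ∧ T.card = i <;> simp [h]
    map_smul' := by
      intro c f
      ext T
      by_cases h : P T ∧ T.card = i <;> simp [h]
    invFun := fun z T => z.1 T.1
    left_inv := by
      intro f
      funext T
      simp [T.2]
    right_inv := by
      intro z
      ext T
      by_cases h : P T ∧ T.card = i
      · simp [h]
      · have : z.1 T = 0 := by
          by_contra h'
          exact h (z.2 T h')
        simp [h, this] }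

theorem finrank_sc (P : Finset (Fin n) → Prop) (i : ℕ) :
    Module.finrank K ↥(sc K P i) = nf P i := by
  classical
  rw [← LinearEquiv.finrank_eq (scEquiv K P i)]
  have : Fintype {T : Finset (Fin n) // P T ∧ T.card = i} := Fintype.ofFinite _
  rw [Module.finrank_fintype_fun_eq_card, nf, Nat.card_eq_fintype_card]

theorem rank_nullity (P : Finset (Fin n) → Prop) (i : ℕ) :
    rk K P i + Module.finrank K ↥(sc K P i ⊓ LinearMap.ker (bd K n)) = nf P i := by
  have h := LinearMap.finrank_range_add_finrank_ker ((bd K n).domRestrict (sc K P i))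
  rw [finrank_sc] at h
  rw [← h, rk]
  congr 1
  · rw [LinearMap.range_domRestrict]
  · rw [LinearMap.ker_domRestrict]
    have h1 : Submodule.comap (sc K P i).subtype (LinearMap.ker (bd K n)) =
      (LinearMap.ker (bd K n)).submoduleOf (sc K P i) := rfl
    rw [h1]
    have := Submodule.finrank_map_subtype_eq (sc K P i)
      ((LinearMap.ker (bd K n)).submoduleOf (sc K P i))
    rw [← this, Submodule.submoduleOf, Submodule.map_comap_subtype]

theorem hm_add {P : Finset (Fin n) → Prop} (hP : Down P) (i : ℕ) :
    hm K P i + rk K P i + rk K P (i + 1) = nf P i := by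
  have h1 := rank_nullity K P i
  have h2 : rk K P (i + 1) ≤ Module.finrank K ↥(sc K P i ⊓ LinearMap.ker (bd K n)) := by
    refine Submodule.finrank_mono ?_
    rintro _ ⟨z, hz, rfl⟩
    exact ⟨bd_mem hP hz, by rw [SetLike.mem_coe, LinearMap.mem_ker, bd_bd]⟩
  rw [hm]
  omega

end Field

end Pool.Agent.R690.Kos
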