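import Pool.Agent.R690.Kos.Bridge

set_option autoImplicit false

/-!
# Finitely generated monomial ideals: finite sums, semicontinuity, powers
-/

namespace Pool.Agent.R690.Kos

open Finset MvPolynomial

variable {n : ℕ}

section

variable (K : Type*) [Field K]

open Classical in
theorem bettiIn_fin {G : Set (Fin n →₀ ℕ)} {B : Fin n →₀ ℕ} (hB : ∀ g ∈ G, g ≤ B) (i : ℕ)
    (A : Set (Fin n →₀ ℕ)) :
    bettiIn (monIdeal K G) i A = ∑ a ∈ (Finset.Iic B).filter (· ∈ A), hm K (Fc G a) i := by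
  apply bettiIn_eq_sum
  · intro a ha
    exact (Finset.mem_filter.1 ha).2
  · intro a ha haF
    have h1 : ¬ a ≤ B := fun h => haF (Finset.mem_filter.2 ⟨Finset.mem_Iic.2 h, ha⟩)
    rw [Finsupp.le_def] at h1
    push Not at h1
    obtain ⟨j, hj⟩ := h1
    exact hm_of_big j (fun g hg => lt_of_le_of_lt (hB g hg j) hj) i

theorem exists_bound {G : Set (Fin n →₀ ℕ)} (hG : G.Finite) : ∃ B, ∀ g ∈ G, g ≤ B := by
  obtain ⟨B, hB⟩ := hG.bddAbove
  exact ⟨B, fun g hg => hB hg⟩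

/-- Semicontinuity. -/
theorem bettiIn_rat_le {G : Set (Fin n →₀ ℕ)} (hG : G.Finite) (i : ℕ) (A : Set (Fin n →₀ ℕ)) :
    bettiIn (monIdeal ℚ G) i A ≤ bettiIn (monIdeal K G) i A := by
  classical
  obtain ⟨B, hB⟩ := exists_bound hG
  rw [bettiIn_fin ℚ hB, bettiIn_fin K hB]
  exact Finset.sum_le_sum fun a _ => hm_rat_le K (Fc_down G a) i

/-- Strict semicontinuity. -/
theorem bettiIn_rat_lt {G : Set (Fin n →₀ ℕ)} (hG : G.Finite) (i : ℕ) (A : Set (Fin n →₀ ℕ))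
    (a : Fin n →₀ ℕ) (ha : a ∈ A) (h : hm ℚ (Fc G a) i ≠ hm K (Fc G a) i) :
    bettiIn (monIdeal ℚ G) i A < bettiIn (monIdeal K G) i A := by
  classical
  obtain ⟨B, hB⟩ := exists_bound hG
  rw [bettiIn_fin ℚ hB, bettiIn_fin K hB]
  refine Finset.sum_lt_sum (fun a _ => hm_rat_le K (Fc_down G a) i) ⟨a, ?_, ?_⟩
  · rw [Finset.mem_filter, Finset.mem_Iic]
    refine ⟨?_, ha⟩
    by_contra h1
    rw [Finsupp.le_def] at h1
    push Not at h1
    obtain ⟨j, hj⟩ := h1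
    have h2 := fun g hg => lt_of_le_of_lt (hB g hg j) hj
    exact h (by rw [hm_of_big j h2 i, hm_of_big j h2 i])
  · exact lt_of_le_of_ne (hm_rat_le K (Fc_down G a) i) h

theorem bettiIn_congr {K' : Type*} [Field K'] {G : Set (Fin n →₀ ℕ)} (hG : G.Finite) (i : ℕ)
    (A : Set (Fin n →₀ ℕ)) (h : ∀ a ∈ A, hm K (Fc G a) i = hm K' (Fc G a) i) :
    bettiIn (monIdeal K G) i A = bettiIn (monIdeal K' G) i A := by
  classical
  obtain ⟨B, hB⟩ := exists_bound hG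
  rw [bettiIn_fin K hB, bettiIn_fin K' hB]
  refine Finset.sum_congr rfl fun a ha => h a (Finset.mem_filter.1 ha).2

/-- If graded pieces differ, some multidegree differs. -/
theorem exists_ne {K' : Type*} [Field K'] {G : Set (Fin n →₀ ℕ)} (hG : G.Finite) {i : ℕ}
    {A : Set (Fin n →₀ ℕ)}
    (h : bettiIn (monIdeal K G) i A ≠ bettiIn (monIdeal K' G) i A) :
    ∃ a ∈ A, hm K (Fc G a) i ≠ hm K' (Fc G a) i := by
  by_contra h1
  push Not at h1
  exact h (bettiIn_congr K hG i A h1)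

end

/-! ### Powers -/

/-- The `ℓ`-fold sums of elements of `G`. -/
def pw (G : Set (Fin n →₀ ℕ)) : ℕ → Set (Fin n →₀ ℕ)
  | 0 => {0}
  | ℓ + 1 => {u | ∃ v ∈ pw G ℓ, ∃ g ∈ G, u = v + g}

theorem pw_finite {G : Set (Fin n →₀ ℕ)} (hG : G.Finite) (ℓ : ℕ) : (pw G ℓ).Finite := by
  induction ℓ with
  | zero => exact Set.finite_singleton _
  | succ ℓ ih =>
    refine ((ih.prod hG).image fun p => p.1 + p.2).subset ?_
    rintro u ⟨v, hv, g, hg, rfl⟩
    exact ⟨(v, g), ⟨hv, hg⟩, rfl⟩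

theorem monIdeal_pow (K : Type*) [Field K] (G : Set (Fin n →₀ ℕ)) (ℓ : ℕ) :
    monIdeal K G ^ ℓ = monIdeal K (pw G ℓ) := by
  induction ℓ with
  | zero =>
    rw [pow_zero, pw, monIdeal, Set.image_singleton]
    have : (monomial (0 : Fin n →₀ ℕ) (1 : K)) = 1 := rfl
    rw [this, Ideal.span_singleton_one, Ideal.one_eq_top]
  | succ ℓ ih =>
    rw [pow_succ, ih, monIdeal, monIdeal, monIdeal, Ideal.span_mul_span']
    congr 1
    ext f
    constructor
    · rintro ⟨_, ⟨u, hu, rfl⟩, _, ⟨g, hg, rfl⟩, rfl⟩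
      refine ⟨u + g, ⟨u, hu, g, hg, rfl⟩, ?_⟩
      simp [MvPolynomial.monomial_mul]
    · rintro ⟨_, ⟨u, hu, g, hg, rfl⟩, rfl⟩
      refine ⟨_, ⟨u, hu, rfl⟩, _, ⟨g, hg, rfl⟩, ?_⟩
      simp [MvPolynomial.monomial_mul]

/-! ### Good primes -/

/-- For all but finitely many primes all ranks in `n` variables are those over the rationals. -/
theorem exists_good (n : ℕ) : ∃ N : ℕ, N ≠ 0 ∧ ∀ (K : Type) [Field K], (N : K) ≠ 0 →
    ∀ (P : Finset (Fin n) → Prop) (i : ℕ), rk K P i = rk ℚ P i := by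
  classical
  choose N hN0 hN using fun q : (Finset (Fin n) → Prop) × Fin (n + 1) =>
    frk_rat_le (bv q.1 q.2.1)
  have hfin : Fintype ((Finset (Fin n) → Prop) × Fin (n + 1)) := Fintype.ofFinite _
  refine ⟨∏ q, N q, Finset.prod_ne_zero_iff.2 fun q _ => hN0 q, ?_⟩
  intro K _ hK P i
  by_cases hi : i ≤ n
  · refine le_antisymm (rk_le_rat K P i) ?_
    rw [rk_eq_frk, rk_eq_frk]
    refine hN (P, ⟨i, by omega⟩) K ?_
    intro h
    apply hK
    rw [Nat.cast_prod]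
    exact Finset.prod_eq_zero (Finset.mem_univ (P, (⟨i, by omega⟩ : Fin (n + 1)))) h
  · have h1 := rk_le_nf K P i
    have h2 := rk_le_nf ℚ P i
    rw [nf_of_lt P (by omega)] at h1 h2
    omega

end Pool.Agent.R690.Kos
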