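import Pool.Agent.R690.Kos.KodEx

set_option autoImplicit false

/-!
# Ideals whose powers have field dependent Betti numbers exactly from the power `q + 1` on
-/

namespace Pool.Agent.R690.Kos

open Finset

section

variable {n : ℕ} {G : Set (Fin n →₀ ℕ)}

theorem pw_add {a b : ℕ} {u v : Fin n →₀ ℕ} (hu : u ∈ pw G a) (hv : v ∈ pw G b) :
    u + v ∈ pw G (a + b) := by
  induction b generalizing v with
  | zero =>
    rw [pw, Set.mem_singleton_iff] at hv
    rw [hv, add_zero, add_zero]; exact hu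
  | succ b ih =>
    obtain ⟨v', hv', g, hg, rfl⟩ := hv
    rw [← add_assoc, ← add_assoc]
    exact ⟨_, ih hv', g, hg, rfl⟩

theorem pw_nsmul {g : Fin n →₀ ℕ} (hg : g ∈ G) (m : ℕ) : m • g ∈ pw G m := by
  induction m with
  | zero => rw [zero_smul, pw, Set.mem_singleton_iff]
  | succ m ih =>
    rw [succ_nsmul]
    exact ⟨_, ih, g, hg, rfl⟩

end

theorem mkv_nsmul {n : ℕ} (m : ℕ) (w : Fin n → ℕ) (p : ℕ) :
    m • mkv w p = mkv (fun k => m * w k) (m * p) := by
  apply ext_last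
  · rw [Finsupp.coe_smul, Pi.smul_apply, mkv_last, mkv_last, smul_eq_mul]
  · intro k
    rw [Finsupp.coe_smul, Pi.smul_apply, mkv_cast, mkv_cast, smul_eq_mul]

/-- The exponents of the generators. -/
def Gq (q : ℕ) : Set (Fin 7 →₀ ℕ) :=
  {u | u = mkv (fun _ : Fin 6 => 0) (2 * q + 2) ∨ u = mkv (fun _ : Fin 6 => 4) (2 * q) ∨
    (∃ T ∈ nf9, u = mkv (fun k : Fin 6 => 2 + ind T k) (2 * q + 1)) ∨
    u = mkv (fun k : Fin 6 => (4 * q + 2) + ind {0, 1, 2} k) 1}

theorem Gq_finite (q : ℕ) : (Gq q).Finite := by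
  have : Gq q ⊆ {mkv (fun _ : Fin 6 => 0) (2 * q + 2)} ∪ ({mkv (fun _ : Fin 6 => 4) (2 * q)} ∪
      ((fun T : Finset (Fin 6) => mkv (fun k : Fin 6 => 2 + ind T k) (2 * q + 1)) ''
        (nf9 : Set (Finset (Fin 6))) ∪
      {mkv (fun k : Fin 6 => (4 * q + 2) + ind {0, 1, 2} k) 1})) := by
    rintro u (h | h | ⟨T, hT, h⟩ | h)
    · exact Or.inl h
    · exact Or.inr (Or.inl h)
    · exact Or.inr (Or.inr (Or.inl ⟨T, hT, h.symm⟩))
    · exact Or.inr (Or.inr (Or.inr h))
  exact ((Set.finite_singleton _).union ((Set.finite_singleton _).union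
    ((nf9.finite_toSet.image _).union (Set.finite_singleton _)))).subset this

theorem pw_Gq_low (q ℓ : ℕ) (u : Fin 7 →₀ ℕ) (hu : u ∈ pw (Gq q) ℓ) :
    ∃ k r s : ℕ, k + r + s ≤ ℓ ∧
      u (Fin.last 6) + ((2 * q + 1) * k + r + 2 * s) = (2 * q + 2) * ℓ ∧
      (∀ x : Fin 6, 2 * ((2 * q + 1) * k + r + 2 * s) + k * ind {0, 1, 2} x ≤ u x.castSucc) ∧
      (1 ≤ r → ∃ T ∈ nf9, ∀ x ∈ T,
        2 * ((2 * q + 1) * k + r + 2 * s) + k * ind {0, 1, 2} x + 1 ≤ u x.castSucc) := by
  induction ℓ generalizing u with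
  | zero =>
    rw [pw, Set.mem_singleton_iff] at hu
    subst hu
    exact ⟨0, 0, 0, by omega, by simp, fun k => by simp, fun h => by omega⟩
  | succ ℓ ih =>
    obtain ⟨v, hv, g, hg, rfl⟩ := hu
    obtain ⟨k, r, s, h1, h2, h3, h4⟩ := ih v hv
    rcases hg with rfl | rfl | ⟨T, hT, rfl⟩ | rfl
    · refine ⟨k, r, s, by omega, ?_, fun x => ?_, fun hr => ?_⟩
      · rw [Finsupp.coe_add, Pi.add_apply, mkv_last]; linarith
      · rw [Finsupp.coe_add, Pi.add_apply, mkv_cast]; exact h3 x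
      · obtain ⟨T, hT, h5⟩ := h4 hr
        refine ⟨T, hT, fun x hx => ?_⟩
        rw [Finsupp.coe_add, Pi.add_apply, mkv_cast]; exact h5 x hx
    · refine ⟨k, r, s + 1, by omega, ?_, fun x => ?_, fun hr => ?_⟩
      · rw [Finsupp.coe_add, Pi.add_apply, mkv_last]; linarith
      · rw [Finsupp.coe_add, Pi.add_apply, mkv_cast]
        have := h3 x; omega
      · obtain ⟨T, hT, h5⟩ := h4 hr
        refine ⟨T, hT, fun x hx => ?_⟩
        rw [Finsupp.coe_add, Pi.add_apply, mkv_cast]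
        have := h5 x hx; omega
    · refine ⟨k, r + 1, s, by omega, ?_, fun x => ?_, fun _ => ⟨T, hT, fun x hx => ?_⟩⟩
      · rw [Finsupp.coe_add, Pi.add_apply, mkv_last]; linarith
      · rw [Finsupp.coe_add, Pi.add_apply, mkv_cast]
        have := h3 x; omega
      · rw [Finsupp.coe_add, Pi.add_apply, mkv_cast, ind, ind, if_pos hx]
        have := h3 x
        rw [ind] at this
        omega
    · have h0 : ∀ x : Fin 6, (k + 1) * ind ({0, 1, 2} : Finset (Fin 6)) x =
          k * ind {0, 1, 2} x + ind {0, 1, 2} x := fun x => by ring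
      refine ⟨k + 1, r, s, by omega, ?_, fun x => ?_, fun hr => ?_⟩
      · rw [Finsupp.coe_add, Pi.add_apply, mkv_last]; linarith
      · rw [Finsupp.coe_add, Pi.add_apply, mkv_cast, h0]
        have := h3 x; linarith
      · obtain ⟨T, hT, h5⟩ := h4 hr
        refine ⟨T, hT, fun x hx => ?_⟩
        rw [Finsupp.coe_add, Pi.add_apply, mkv_cast, h0]
        have := h5 x hx; linarith

theorem pw_Gq_even (q k s t : ℕ) :
    mkv (fun x : Fin 6 => k * ((4 * q + 2) + ind {0, 1, 2} x) + s * 4)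
      (k + s * (2 * q) + t * (2 * q + 2)) ∈ pw (Gq q) (k + s + t) := by
  have h1 := pw_nsmul (G := Gq q) (g := mkv (fun k : Fin 6 => (4 * q + 2) + ind {0, 1, 2} k) 1)
    (Or.inr (Or.inr (Or.inr rfl))) k
  have h2 := pw_nsmul (G := Gq q) (g := mkv (fun _ : Fin 6 => 4) (2 * q))
    (Or.inr (Or.inl rfl)) s
  have h3 := pw_nsmul (G := Gq q) (g := mkv (fun _ : Fin 6 => 0) (2 * q + 2))
    (Or.inl rfl) t
  have h4 := pw_add (pw_add h1 h2) h3
  rw [mkv_nsmul, mkv_nsmul, mkv_nsmul, mkv_add, mkv_add] at h4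
  rwa [mkv_congr (w' := fun x : Fin 6 => k * ((4 * q + 2) + ind {0, 1, 2} x) + s * 4)
    (p' := k + s * (2 * q) + t * (2 * q + 2)) (fun x => by ring) (by ring)] at h4

theorem pw_Gq_odd (q k s t : ℕ) {T : Finset (Fin 6)} (hT : T ∈ nf9) :
    mkv (fun x : Fin 6 => k * ((4 * q + 2) + ind {0, 1, 2} x) + s * 4 + (2 + ind T x))
      (k + s * (2 * q) + t * (2 * q + 2) + (2 * q + 1)) ∈ pw (Gq q) (k + s + t + 1) := by
  have h1 := add_mem_pw (pw_Gq_even q k s t) (show mkv (fun k : Fin 6 => 2 + ind T k) (2 * q + 1) ∈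
    Gq q from Or.inr (Or.inr (Or.inl ⟨T, hT, rfl⟩)))
  rwa [mkv_add] at h1

/-- The types of the layers. -/
def Fq (q j : ℕ) : Finset (Finset (Fin 6)) := if j % (2 * q + 1) % 2 = 0 then {∅} else nf9

theorem layq (q ℓ : ℕ) (hℓ : ℓ ≤ q) : Lay (n := 6) (pw (Gq q) ℓ) ((2 * q + 2) * ℓ)
    (fun j => j / (2 * q + 1) + (j % (2 * q + 1) + 1) / 2 ≤ ℓ)
    (fun j x => 2 * j + (j / (2 * q + 1)) * ind {0, 1, 2} x) (Fq q) where
  pos := by norm_num
  ly := by
    intro p w
    constructor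
    · rintro ⟨u, hu, hp, hw⟩
      obtain ⟨k, r, s, h1, h2, h3, h4⟩ := pw_Gq_low q ℓ u hu
      have h5 : r + 2 * s < 2 * q + 1 := by omega
      have h6 : ((2 * q + 1) * k + r + 2 * s) / (2 * q + 1) = k := by
        rw [add_assoc, Nat.mul_add_div (by omega), Nat.div_eq_of_lt h5, add_zero]
      have h7 : ((2 * q + 1) * k + r + 2 * s) % (2 * q + 1) = r + 2 * s := by
        rw [add_assoc, Nat.mul_add_mod, Nat.mod_eq_of_lt h5]
      refine ⟨(2 * q + 1) * k + r + 2 * s, ?_, by omega, fun x => ?_, ?_⟩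
      · beta_reduce
        rw [h6, h7]
        omega
      · beta_reduce
        rw [h6]
        exact (h3 x).trans (hw x)
      · rw [Fq, h7]
        beta_reduce
        rw [h6]
        split_ifs with hpar
        · exact ⟨∅, by simp, Finset.empty_subset _⟩
        · obtain ⟨T, hT, h5⟩ := h4 (by omega)
          refine ⟨T, hT, fun x hx => ?_⟩
          simp only [mem_filter, mem_univ, true_and]
          have := h5 x hx
          have := hw x
          omega
    · rintro ⟨j, hj, hN, hc, hX⟩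
      beta_reduce at hj hX
      have hdm := Nat.div_add_mod j (2 * q + 1)
      set k := j / (2 * q + 1) with hk
      set r := j % (2 * q + 1) with hr
      rw [Fq, ← hr] at hX
      split_ifs at hX with hpar
      · obtain ⟨s, hs⟩ : ∃ s, r = 2 * s := ⟨r / 2, by omega⟩
        obtain ⟨t, ht⟩ : ∃ t, ℓ = k + s + t := ⟨ℓ - k - s, by omega⟩
        refine ⟨_, ht ▸ pw_Gq_even q k s t, ?_, ?_⟩
        · rw [mkv_last]
          rw [ht] at hN
          nlinarith
        · intro x
          rw [mkv_cast]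
          have h5 := hc x
          beta_reduce at h5
          nlinarith
      · obtain ⟨s, hs⟩ : ∃ s, r = 2 * s + 1 := ⟨r / 2, by omega⟩
        obtain ⟨t, ht⟩ : ∃ t, ℓ = k + s + t + 1 := ⟨ℓ - k - s - 1, by omega⟩
        obtain ⟨T, hT, hTW⟩ := hX
        refine ⟨_, ht ▸ pw_Gq_odd q k s t hT, ?_, ?_⟩
        · rw [mkv_last]
          rw [ht] at hN
          nlinarith
        · intro x
          rw [mkv_cast]
          have h5 := hc x
          beta_reduce at h5
          have h6 : 2 * j + k * ind {0, 1, 2} x + ind T x ≤ w x := by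
            by_cases hx : x ∈ T
            · have := hTW hx
              simp only [mem_filter, mem_univ, true_and] at this
              rw [ind.eq_def T, if_pos hx]
              omega
            · rw [ind.eq_def T, if_neg hx]
              omega
          nlinarith
  mono := by
    intro j j' _ _ h x
    beta_reduce
    have h1 : j / (2 * q + 1) ≤ j' / (2 * q + 1) := Nat.div_le_div_right h.le
    have h2 := Nat.mul_le_mul_right (ind {0, 1, 2} x) h1
    omega
  top := by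
    intro j _
    rw [Fq]
    split_ifs
    · exact ⟨∅, by simp, Finset.empty_subset _⟩
    · exact ⟨{0, 1, 4}, by decide, Finset.subset_univ _⟩

/-- Field independence for the full simplex, including the empty vertex set. -/
theorem hm_emp {n : ℕ} (K K' : Type*) [Field K] [Field K'] (W : Finset (Fin n)) (i : ℕ) :
    hm K (Lk {∅} W) i = hm K' (Lk {∅} W) i := by
  by_cases h : W.Nonempty ∨ 0 < i
  · rw [hm_simplex K (by simp) W i h, hm_simplex K' (by simp) W i h]
  · push Not at h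
    obtain ⟨hW, hi⟩ := h
    subst hW
    obtain rfl : i = 0 := by omega
    have h1 := hm_add K (Lk_down {∅} (∅ : Finset (Fin n))) 0
    have h1' := hm_add K' (Lk_down {∅} (∅ : Finset (Fin n))) 0
    have h2 : nf (Lk {∅} (∅ : Finset (Fin n))) 1 = 0 := by
      refine nf_eq_zero fun T hT => ?_
      have h3 := hT.1
      rw [Finset.subset_empty] at h3
      rw [h3, Finset.card_empty]; omega
    have h3 := rk_of_nf K h2
    have h3' := rk_of_nf K' h2
    rw [rk_zero] at h1 h1'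
    rw [zero_add] at h1 h1'
    omega

theorem hm_Fq (K K' : Type*) [Field K] [Field K'] (q j : ℕ) (W : Finset (Fin 6)) (i : ℕ) :
    hm K (Lk (Fq q j) W) i = hm K' (Lk (Fq q j) W) i := by
  rw [Fq]
  split_ifs
  · exact hm_emp K K' W i
  · rw [hm_nf9 K, hm_nf9 K']

/-- Low powers: no dependence on the field. -/
theorem low_pow (K K' : Type*) [Field K] [Field K'] (q ℓ : ℕ) (hℓ : ℓ ≤ q) (i : ℕ)
    (A : Set (Fin 7 →₀ ℕ)) :
    bettiIn (monIdeal K (Gq q) ^ ℓ) i A = bettiIn (monIdeal K' (Gq q) ^ ℓ) i A := by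
  rw [monIdeal_pow, monIdeal_pow]
  refine bettiIn_congr K (pw_finite (Gq_finite q) ℓ) i A fun a _ => ?_
  exact (layq q ℓ hℓ).hm_congr K (fun j _ W i => hm_Fq K K' q j W i) a i

/-- The multidegree showing the dependence on the field. -/
noncomputable def aq (q ℓ : ℕ) : Fin 7 →₀ ℕ :=
  mkv (fun _ : Fin 6 => 4 * q + 3) ((2 * q + 2) * ℓ - (2 * q + 1))

theorem lk_aq (q ℓ : ℕ) (hℓ : q + 1 ≤ ℓ) : ¬ lk (Fc (pw (Gq q) ℓ) (aq q ℓ)) ∅ := by
  have hb : (2 * q + 2) * (q + 1) ≤ (2 * q + 2) * ℓ := Nat.mul_le_mul_left _ hℓ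
  have hb2 : 2 * q + 2 ≤ (2 * q + 2) * (q + 1) := Nat.le_mul_of_pos_right _ (by omega)
  rw [lk_Fc (by rw [aq, mkv_last]; omega), Kz_empty]
  rintro ⟨u, hu, h1, h2⟩
  obtain ⟨k, r, s, h3, h4, h5, h6⟩ := pw_Gq_low q ℓ u hu
  rw [aq, mkv_last] at h1
  have h7 := h2 0
  have h8 := h5 0
  beta_reduce at h7
  rw [aq, mkv_cast] at h7
  omega

theorem dl_aq (q ℓ : ℕ) (hℓ : q + 1 ≤ ℓ) : dl (Fc (pw (Gq q) ℓ) (aq q ℓ)) = Lk nf10 univ := by
  have hb : (2 * q + 2) * (q + 1) ≤ (2 * q + 2) * ℓ := Nat.mul_le_mul_left _ hℓ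
  have hb2 : 2 * q + 2 ≤ (2 * q + 2) * (q + 1) := Nat.le_mul_of_pos_right _ (by omega)
  rw [dl_Fc]
  funext T
  apply propext
  constructor
  · rintro ⟨h1, u, hu, h2, h3⟩
    refine ⟨Finset.subset_univ _, ?_⟩
    obtain ⟨k, r, s, h4, h5, h6, h7⟩ := pw_Gq_low q ℓ u hu
    rw [aq, mkv_last] at h2
    have h8 : ∀ x : Fin 6, u x.castSucc ≤ 4 * q + 3 - if x ∈ T then 1 else 0 := by
      intro x
      have := h3 x
      beta_reduce at this
      rwa [aq, mkv_cast] at this
    have hj : (2 * q + 1) * k + r + 2 * s = 2 * q + 1 := by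
      have h9 := h8 0
      have h10 := h6 0
      have : u (0 : Fin 6).castSucc ≤ 4 * q + 3 := h9.trans (Nat.sub_le _ _)
      omega
    rcases Nat.eq_zero_or_pos r with hr | hr
    · have hk : k = 1 := by
        rcases k with _ | _ | k
        · omega
        · rfl
        · exfalso; nlinarith
      subst hk
      refine ⟨{0, 1, 2}, by decide, fun x hx => ?_⟩
      rw [mem_sdiff]
      refine ⟨mem_univ _, fun hxT => ?_⟩
      have h9 := h8 x
      have h10 := h6 x
      rw [if_pos hxT] at h9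
      rw [ind, if_pos hx] at h10
      omega
    · obtain ⟨T', hT', h9⟩ := h7 hr
      refine ⟨T', Finset.mem_insert_of_mem hT', fun x hx => ?_⟩
      rw [mem_sdiff]
      refine ⟨mem_univ _, fun hxT => ?_⟩
      have h10 := h8 x
      have h11 := h9 x hx
      rw [if_pos hxT] at h10
      omega
  · rintro ⟨-, T', hT', hd⟩
    refine ⟨fun x _ => ?_, ?_⟩
    · beta_reduce
      rw [aq, mkv_cast]; omega
    have hdis : ∀ x : Fin 6, ind T' x + (if x ∈ T then 1 else 0) ≤ 1 := by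
      intro x
      rw [ind]
      by_cases hx : x ∈ T'
      · have := hd hx
        rw [mem_sdiff] at this
        rw [if_pos hx, if_neg this.2]
      · rw [if_neg hx]
        split_ifs <;> omega
    rcases Finset.mem_insert.1 hT' with h | h
    · subst h
      obtain ⟨t, rfl⟩ : ∃ t, ℓ = t + 1 := ⟨ℓ - 1, by omega⟩
      have hm := pw_Gq_even q 1 0 t
      have e1 : 1 + 0 + t = t + 1 := by ring
      rw [e1] at hm
      refine ⟨_, hm, ?_, ?_⟩
      · rw [mkv_last, aq, mkv_last]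
        have : (2 * q + 2) * (t + 1) = t * (2 * q + 2) + (2 * q + 2) := by ring
        omega
      · intro x
        rw [mkv_cast]
        beta_reduce
        rw [aq, mkv_cast]
        have := hdis x
        omega
    · obtain ⟨t, rfl⟩ : ∃ t, ℓ = q + t + 1 := ⟨ℓ - q - 1, by omega⟩
      have hm := pw_Gq_odd q 0 q t h
      have e1 : 0 + q + t + 1 = q + t + 1 := by ring
      rw [e1] at hm
      refine ⟨_, hm, ?_, ?_⟩
      · rw [mkv_last, aq, mkv_last]
        have : (2 * q + 2) * (q + t + 1) = 0 + q * (2 * q) + t * (2 * q + 2) + (4 * q + 2) := by ring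
        omega
      · intro x
        rw [mkv_cast]
        beta_reduce
        rw [aq, mkv_cast]
        have := hdis x
        omega

/-- High powers: the third Betti number depends on the field. -/
theorem high_pow (q ℓ : ℕ) (hℓ : q + 1 ≤ ℓ) :
    betti (monIdeal ℚ (Gq q) ^ ℓ) 3 < betti (monIdeal (ZMod 2) (Gq q) ^ ℓ) 3 := by
  rw [monIdeal_pow, monIdeal_pow]
  refine bettiIn_rat_lt (ZMod 2) (pw_finite (Gq_finite q) ℓ) 3 Set.univ (aq q ℓ) (Set.mem_univ _) ?_
  have hd := Fc_down (pw (Gq q) ℓ) (aq q ℓ)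
  rw [hm_of_lk_void ℚ hd (lk_aq q ℓ hℓ), hm_of_lk_void (ZMod 2) hd (lk_aq q ℓ hℓ), dl_aq q ℓ hℓ,
    hm10_rat, hm10_two]
  norm_num

end Pool.Agent.R690.Kos
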