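import Pool.Agent.R690.Kos.RP2b

set_option autoImplicit false

/-!
# Betti numbers of all powers of `(x^2, m^4, x m^2 J)`
-/

namespace Pool.Agent.R690.Kos

open Finset

/-- Multidegrees of the first kind. -/
noncomputable def Av (ℓ s : ℕ) : Fin 7 →₀ ℕ := mkv (fun _ : Fin 6 => 4 * s + 3) (2 * ℓ - 2 * s - 1)

/-- Multidegrees of the second kind. -/
noncomputable def Bv (ℓ s : ℕ) (W : Finset (Fin 6)) : Fin 7 →₀ ℕ :=
  mkv (fun k : Fin 6 => 4 * s + 2 + ind W k) (2 * ℓ - 2 * s)

theorem isMin0 {ℓ p j : ℕ} (h : IsMin (2 * ℓ) (fun j => j ≤ 2 * ℓ) p j) (hj : 0 < j) :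
    p + j = 2 * ℓ := by
  obtain ⟨h1, h2, h3⟩ := h
  by_contra h4
  have := h3 (j - 1) (by omega) (by omega)
  omega

section

variable (K : Type*) [Field K]

theorem F0_odd {j : ℕ} (h : j % 2 = 1) : F0 j = nf10 := by rw [F0, if_neg (by omega)]

theorem F0_even {j : ℕ} (h : j % 2 = 0) : F0 j = {∅} := by rw [F0, if_pos h]

/-- Values at the multidegrees of the first kind. -/
theorem hm_Av {ℓ s : ℕ} (hs : s < ℓ) (i : ℕ) :
    hm K (Fc (pw G0 ℓ) (Av ℓ s)) i = hm K (Lk nf10 univ) i := by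
  have hL := lay0 ℓ
  have hp : Av ℓ s (Fin.last 6) = 2 * ℓ - 2 * s - 1 := mkv_last _ _
  have hw : (fun k : Fin 6 => Av ℓ s k.castSucc) = fun _ => 4 * s + 3 := by
    funext k; exact mkv_cast _ _ k
  have hmin : IsMin (2 * ℓ) (fun j => j ≤ 2 * ℓ) (Av ℓ s (Fin.last 6)) (2 * s + 1) := by
    rw [hp]
    exact ⟨by omega, by omega, fun j' h1 h2 => by omega⟩
  have hlk : ¬ lk (Fc (pw G0 ℓ) (Av ℓ s)) ∅ := by
    rw [lk_Fc (by rw [hp]; omega), Kz_empty, hw, hp, hL.ly]
    rintro ⟨j, h1, h2, h3, -⟩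
    have := h3 0
    beta_reduce at this
    omega
  have hdl := dl_Fc (pw G0 ℓ) (Av ℓ s)
  rw [hL.ly_min hmin, hw] at hdl
  rw [hm_of_lk_void K (Fc_down _ _) hlk, hdl, hm_Kz_sq, F0_odd (by omega)]
  · congr 1
    have : (univ.filter fun _ : Fin 6 => 2 * (2 * s + 1) < 4 * s + 3) = univ := by
      refine Finset.filter_true_of_mem fun k _ => ?_
      omega
    rw [this]
  · intro k; beta_reduce; omega

/-- Values at the multidegrees of the second kind. -/
theorem hm_Bv {ℓ s : ℕ} (hs : s < ℓ) (W : Finset (Fin 6)) (i : ℕ) :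
    hm K (Fc (pw G0 ℓ) (Bv ℓ s W)) (i + 1) = hm K (Lk nf10 W) i := by
  have hL := lay0 ℓ
  have hp : Bv ℓ s W (Fin.last 6) = 2 * ℓ - 2 * s := mkv_last _ _
  have hw : (fun k : Fin 6 => Bv ℓ s W k.castSucc) = fun k => 4 * s + 2 + ind W k := by
    funext k; exact mkv_cast _ _ k
  have hmin0 : IsMin (2 * ℓ) (fun j => j ≤ 2 * ℓ) (Bv ℓ s W (Fin.last 6)) (2 * s) := by
    rw [hp]
    exact ⟨by omega, by omega, fun j' h1 h2 => by omega⟩
  have hmin1 : IsMin (2 * ℓ) (fun j => j ≤ 2 * ℓ) (Bv ℓ s W (Fin.last 6) - 1) (2 * s + 1) := by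
    rw [hp]
    exact ⟨by omega, by omega, fun j' h1 h2 => by omega⟩
  have hW : (univ.filter fun k : Fin 6 => 2 * (2 * s + 1) < 4 * s + 2 + ind W k) = W := by
    ext k
    rw [Finset.mem_filter, ind]
    by_cases h : k ∈ W
    · rw [if_pos h]
      exact ⟨fun _ => h, fun _ => ⟨mem_univ k, by omega⟩⟩
    · rw [if_neg h]
      exact ⟨fun h' => by omega, fun h' => absurd h' h⟩
  by_cases hR : Rj ((fun j (_ : Fin 6) => 2 * j) (2 * s + 1)) (F0 (2 * s + 1))
      (fun k : Fin 6 => Bv ℓ s W k.castSucc)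
  · obtain ⟨h1, h2⟩ := hL.case_last (by rw [hp]; omega) hmin0 hmin1 (by omega) hR
    rw [(hm_last K _ (Fc_down _ _) h1 i).1, h2, hw, hm_Kz_sq, F0_odd (by omega)]
    · congr 1
      exact congrArg (Lk nf10) hW
    · intro k; beta_reduce; rw [ind]; split_ifs <;> omega
  · have hX : ¬ Xof nf10 W := by
      intro hX
      apply hR
      rw [hw, F0_odd (by omega)]
      refine ⟨fun k => ?_, ?_⟩
      · beta_reduce; omega
      · beta_reduce; rw [hW]; exact hX
    rw [hm_void K (Lk_down nf10 W) (by rintro ⟨-, h⟩; rw [sdiff_empty] at h; exact hX h)]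
    have hlk : ¬ lk (Fc (pw G0 ℓ) (Bv ℓ s W)) ∅ := by
      rw [lk_Fc (by rw [hp]; omega), Kz_empty, hL.ly_min hmin1]
      exact hR
    rw [hm_of_lk_void K (Fc_down _ _) hlk, dl_Fc, hL.ly_min hmin0, hw]
    refine hm_Kz_zero K _ ?_ _
    intro h
    have := (h 0).2
    beta_reduce at this
    omega

/-- The other multidegrees do not contribute in degrees at least three. -/
theorem hm_other {ℓ : ℕ} (a : Fin 7 →₀ ℕ) (hA : ∀ s < ℓ, a ≠ Av ℓ s)
    (hB : ∀ s < ℓ, ∀ W, a ≠ Bv ℓ s W) (i : ℕ) (hi : 3 ≤ i) : hm K (Fc (pw G0 ℓ) a) i = 0 := by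
  have hL := lay0 ℓ
  have hd := Fc_down (pw G0 ℓ) a
  have hsimp : ∀ (W : Finset (Fin 6)) (m : ℕ), 0 < m → hm K (Lk {∅} W) m = 0 :=
    fun W m hm' => hm_simplex K (by simp) W m (Or.inr hm')
  rcases hL.cases a with h1 | h1 | ⟨h1, j, hj, h2⟩ | ⟨hp, j, hj, hj0, h1, h2⟩
  · exact hm_void K hd h1 i
  · exact hm_cone K _ h1 i
  · rw [hm_of_lk_void K hd h1, h2]
    by_cases hsq : ∀ k, (fun j (_ : Fin 6) => 2 * j) j k ≤ (fun k : Fin 6 => a k.castSucc) k ∧
        (fun k : Fin 6 => a k.castSucc) k ≤ (fun j (_ : Fin 6) => 2 * j) j k + 1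
    · rw [hm_Kz_sq K _ hsq]
      rcases Nat.mod_two_eq_zero_or_one j with hpar | hpar
      · rw [F0_even hpar]; exact hsimp _ _ (by omega)
      · rw [F0_odd hpar]
        have h3 := isMin0 hj (by omega)
        by_cases hall : ∀ k : Fin 6, 2 * j < a k.castSucc
        · exfalso
          refine hA (j / 2) (by omega) ?_
          apply ext_last
          · rw [Av, mkv_last]; omega
          · intro k
            rw [Av, mkv_cast]
            have := hall k
            have := (hsq k).2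
            beta_reduce at this
            omega
        · push Not at hall
          obtain ⟨k, hk⟩ := hall
          have h4 : (univ.filter fun k : Fin 6 => 2 * j < a k.castSucc).card < 6 := by
            have : (univ.filter fun k : Fin 6 => 2 * j < a k.castSucc) ⊂ univ := by
              rw [Finset.ssubset_univ_iff]
              intro h
              have := (Finset.eq_univ_iff_forall.1 h) k
              simp only [mem_filter, mem_univ, true_and] at this
              omega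
            have := Finset.card_lt_card this
            rwa [Finset.card_univ, Fintype.card_fin] at this
          have h5 := hm_add K (Lk_down nf10 (univ.filter fun k : Fin 6 => 2 * j < a k.castSucc)) i
          rw [nf_big card_nf10 _ i (by omega)] at h5
          beta_reduce
          omega
    · exact hm_Kz_zero K _ hsq i
  · obtain ⟨m, rfl⟩ : ∃ m, i = m + 1 := ⟨i - 1, by omega⟩
    rw [(hm_last K _ hd h1 m).1, h2]
    by_cases hsq : ∀ k, (fun j (_ : Fin 6) => 2 * j) j k ≤ (fun k : Fin 6 => a k.castSucc) k ∧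
        (fun k : Fin 6 => a k.castSucc) k ≤ (fun j (_ : Fin 6) => 2 * j) j k + 1
    · rw [hm_Kz_sq K _ hsq]
      rcases Nat.mod_two_eq_zero_or_one j with hpar | hpar
      · rw [F0_even hpar]; exact hsimp _ _ (by omega)
      · exfalso
        have h3 := isMin0 hj hj0
        refine hB (j / 2) (by omega) (univ.filter fun k : Fin 6 => 2 * j < a k.castSucc) ?_
        apply ext_last
        · rw [Bv, mkv_last]; omega
        · intro k
          rw [Bv, mkv_cast, ind]
          have h6 := hsq k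
          beta_reduce at h6
          split_ifs with h7
          · simp only [mem_filter, mem_univ, true_and] at h7; omega
          · simp only [mem_filter, mem_univ, true_and] at h7; omega
    · exact hm_Kz_zero K _ hsq m

theorem Bv_inj {ℓ s s' : ℕ} {W W' : Finset (Fin 6)} (hs : s < ℓ) (hs' : s' < ℓ)
    (h : Bv ℓ s W = Bv ℓ s' W') : s = s' ∧ W = W' := by
  have h1 := congrArg (fun u => u (Fin.last 6)) h
  simp only [Bv, mkv_last] at h1
  have h2 : s = s' := by omega
  subst h2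
  refine ⟨rfl, ?_⟩
  ext k
  have h3 := congrArg (fun u => u k.castSucc) h
  simp only [Bv, mkv_cast, ind] at h3
  by_cases h4 : k ∈ W <;> by_cases h5 : k ∈ W' <;> simp [h4, h5] at h3 ⊢

theorem Av_inj {ℓ s s' : ℕ} (hs : s < ℓ) (hs' : s' < ℓ) (h : Av ℓ s = Av ℓ s') : s = s' := by
  have h1 := congrArg (fun u => u (Fin.last 6)) h
  simp only [Av, mkv_last] at h1
  omega

theorem Av_ne_Bv {ℓ s s' : ℕ} {W : Finset (Fin 6)} (hs : s < ℓ) (hs' : s' < ℓ) :
    Av ℓ s ≠ Bv ℓ s' W := by
  intro h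
  have h1 := congrArg (fun u => u (Fin.last 6)) h
  simp only [Av, Bv, mkv_last] at h1
  omega

/-- The Betti numbers of the powers in homological degrees at least three. -/
theorem betti_pow (ℓ i : ℕ) (hi : 2 ≤ i) :
    betti (monIdeal K G0 ^ ℓ) (i + 1) =
      ℓ * (hm K (Lk nf10 univ) (i + 1) + ∑ W : Finset (Fin 6), hm K (Lk nf10 W) i) := by
  classical
  rw [monIdeal_pow, betti, bettiIn_eq_sum (F := (range ℓ).image (fun s => Av ℓ s) ∪
    (range ℓ ×ˢ (univ : Finset (Finset (Fin 6)))).image (fun q => Bv ℓ q.1 q.2))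
    (fun a _ => Set.mem_univ a)]
  · rw [Finset.sum_union, Finset.sum_image, Finset.sum_image, Finset.sum_product]
    · have h1 : ∀ s ∈ range ℓ, hm K (Fc (pw G0 ℓ) (Av ℓ s)) (i + 1) =
          hm K (Lk nf10 univ) (i + 1) :=
        fun s hs => hm_Av K (Finset.mem_range.1 hs) (i + 1)
      have h2 : ∀ s ∈ range ℓ, ∑ W : Finset (Fin 6), hm K (Fc (pw G0 ℓ) (Bv ℓ s W)) (i + 1) =
          ∑ W : Finset (Fin 6), hm K (Lk nf10 W) i :=
        fun s hs => Finset.sum_congr rfl fun W _ => hm_Bv K (Finset.mem_range.1 hs) W i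
      rw [Finset.sum_congr rfl h1, Finset.sum_congr rfl h2, Finset.sum_const, Finset.sum_const,
        Finset.card_range, smul_eq_mul, smul_eq_mul, mul_add]
    · rintro ⟨s, W⟩ h1 ⟨s', W'⟩ h2 h
      simp only [Finset.coe_product, Set.mem_prod, Finset.mem_coe, Finset.mem_range] at h1 h2
      obtain ⟨h3, h4⟩ := Bv_inj h1.1 h2.1 h
      exact Prod.ext h3 h4
    · intro s h1 s' h2 h
      exact Av_inj (Finset.mem_range.1 h1) (Finset.mem_range.1 h2) h
    · rw [Finset.disjoint_left]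
      intro a h1 h2
      obtain ⟨s, hs, rfl⟩ := Finset.mem_image.1 h1
      obtain ⟨⟨s', W⟩, hs', h⟩ := Finset.mem_image.1 h2
      rw [Finset.mem_product] at hs'
      exact Av_ne_Bv (Finset.mem_range.1 hs) (Finset.mem_range.1 hs'.1) h.symm
  · intro a _ ha
    refine hm_other K a (fun s hs h => ha ?_) (fun s hs W h => ha ?_) (i + 1) (by omega)
    · exact Finset.mem_union_left _ (Finset.mem_image.2 ⟨s, Finset.mem_range.2 hs, h.symm⟩)
    · exact Finset.mem_union_right _ (Finset.mem_image.2 ⟨(s, W),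
        Finset.mem_product.2 ⟨Finset.mem_range.2 hs, Finset.mem_univ W⟩, h.symm⟩)

theorem sum_three : ∑ W : Finset (Fin 6), hm K (Lk nf10 W) 3 = hm K (Lk nf10 univ) 3 := by
  refine Finset.sum_eq_single univ (fun W _ hW => ?_) (fun h => absurd (Finset.mem_univ _) h)
  have h5 := hm_add K (Lk_down nf10 W) 3
  have h6 : W.card < 6 := by
    have := Finset.card_lt_card (Finset.ssubset_univ_iff.2 hW)
    rwa [Finset.card_univ, Fintype.card_fin] at this
  rw [nf_big card_nf10 _ 3 (by omega)] at h5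
  omega

theorem hm_four : hm K (Lk nf10 univ) 4 = 0 := by
  have h5 := hm_add K (Lk_down nf10 univ) 4
  rw [nf_big card_nf10 _ 4 (by decide)] at h5
  omega

end

end Pool.Agent.R690.Kos
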