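import Pool.Agent.R690.Kos.Cert

set_option autoImplicit false
set_option maxRecDepth 100000

/-!
# The six-vertex triangulation of the projective plane
-/

namespace Pool.Agent.R690.Kos

open Finset

/-- Nine of the ten minimal nonfaces of the six-vertex triangulation of the projective plane. -/
def nf9 : Finset (Finset (Fin 6)) :=
  {{0, 1, 4}, {0, 2, 5}, {0, 3, 4}, {0, 3, 5}, {1, 2, 3}, {1, 3, 5}, {1, 4, 5}, {2, 3, 4}, {2, 4, 5}}

/-- The ten minimal nonfaces of the six-vertex triangulation of the projective plane. -/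
def nf10 : Finset (Finset (Fin 6)) := insert {0, 1, 2} nf9

theorem card_nf9 : ∀ T ∈ nf9, T.card = 3 := by decide

theorem card_nf10 : ∀ T ∈ nf10, T.card = 3 := by decide

/-- No faces beyond a certain dimension. -/
theorem nf_big {F : Finset (Finset (Fin 6))} (hF : ∀ T ∈ F, T.card = 3) (W : Finset (Fin 6)) (i : ℕ)
    (h : W.card < i + 3) : nf (Lk F W) i = 0 := by
  refine nf_eq_zero fun T hT => ?_
  obtain ⟨h1, A, hA, hAW⟩ := hT
  have h2 := Finset.card_le_card hAW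
  rw [hF A hA, Finset.card_sdiff_of_subset h1] at h2
  have h3 := Finset.card_le_card h1
  omega

/-- The certificate for nine triangles. -/
def c9 : List (List (Finset (Fin 6) × ℤ) × Finset (Fin 6)) :=
  [([({3, 4}, 1)], {1, 3, 4}), ([({1, 3}, 1)], {0, 1, 3}), ([({0, 1}, 1)], {0, 1, 5}),
   ([({0, 3}, 1)], {0, 2, 3}), ([({0, 2}, 1)], {0, 2, 4}), ([({0, 4}, 1)], {0, 4, 5}),
   ([({1, 4}, 1)], {1, 2, 4}), ([({1, 2}, 1)], {1, 2, 5}), ([({2, 3}, 1)], {2, 3, 5})]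

theorem c9_pw : c9.Pairwise (fun p q => ev p.1 q.2 = 0) := by decide

theorem c9_ne : ∀ p ∈ c9, ev p.1 p.2 = 1 ∨ ev p.1 p.2 = -1 := by decide

/-- The additional functional. -/
def c10 : List (List (Finset (Fin 6) × ℤ) × Finset (Fin 6)) :=
  ([({0, 2}, -1), ({0, 3}, -1), ({1, 3}, -1), ({1, 4}, 1), ({2, 4}, 1), ({3, 4}, 2)], {3, 4, 5}) :: c9

theorem c10_pw : c10.Pairwise (fun p q => ev p.1 q.2 = 0) := by decide

theorem c10_ne : ∀ p ∈ c10, ev p.1 p.2 ≠ 0 := by decide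

theorem c9_mem : ∀ p ∈ c9, Lk nf9 univ p.2 ∧ p.2.card = 3 := by decide

theorem c10_mem : ∀ p ∈ c10, Lk nf10 univ p.2 ∧ p.2.card = 3 := by decide

theorem nf3_10 : nf (Lk nf10 univ) 3 = 10 := by
  rw [nf_eq_card]; decide

theorem nf3_9 : nf (Lk nf9 univ) 3 = 9 := by
  rw [nf_eq_card]; decide

/-- All ones on the ten triangles is a cycle modulo two. -/
def z10 (T : Finset (Fin 6)) : ZMod 2 := if Lk nf10 univ T ∧ T.card = 3 then 1 else 0

theorem bd_z10 : ∀ S, bd (ZMod 2) 6 z10 S = 0 := by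
  intro S
  rw [bd_apply]
  simp only [ep]
  revert S
  decide

theorem hm10_rat : hm ℚ (Lk nf10 univ) 3 = 0 := by
  have h1 := hm_add ℚ (Lk_down nf10 univ) 3
  rw [nf3_10] at h1
  have h2 := rk_ge_of_cert ℚ (P := Lk nf10 univ) (i := 3) c10 c10_pw
    (fun p hp => by exact_mod_cast c10_ne p hp) c10_mem
  have h3 : c10.length = 10 := rfl
  omega

theorem c9_ne' (K : Type*) [Field K] : ∀ p ∈ c9, ((ev p.1 p.2 : ℤ) : K) ≠ 0 := by
  intro p hp
  rcases c9_ne p hp with h | h <;> rw [h] <;> simp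

theorem hm10_two : hm (ZMod 2) (Lk nf10 univ) 3 = 1 := by
  have h1 := hm_add (ZMod 2) (Lk_down nf10 univ) 3
  rw [nf3_10] at h1
  have h2 := rk_ge_of_cert (ZMod 2) (P := Lk nf10 univ) (i := 3) c9 c9_pw (c9_ne' _)
    (fun p hp => c10_mem p (List.mem_cons_of_mem _ hp))
  have h3 : c9.length = 9 := rfl
  have h4 := rank_nullity (ZMod 2) (Lk nf10 univ) 3
  rw [nf3_10] at h4
  have h5 : 0 < Module.finrank (ZMod 2)
      ↥(sc (ZMod 2) (Lk nf10 univ) 3 ⊓ LinearMap.ker (bd (ZMod 2) 6)) := by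
    rw [Module.finrank_pos_iff, Submodule.nontrivial_iff_ne_bot]
    intro h
    have h6 : z10 ∈ sc (ZMod 2) (Lk nf10 univ) 3 ⊓ LinearMap.ker (bd (ZMod 2) 6) := by
      refine ⟨?_, ?_⟩
      · intro T hT
        by_contra h7
        exact hT (if_neg h7)
      · rw [SetLike.mem_coe, LinearMap.mem_ker]
        funext S
        exact bd_z10 S
    rw [h, Submodule.mem_bot] at h6
    have h7 : z10 {3, 4, 5} = 1 := by decide
    rw [h6] at h7
    exact absurd h7 (by decide)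
  have h8 := rk_of_nf (ZMod 2) (nf_big card_nf10 univ 4 (by decide))
  simp only [Nat.reduceAdd] at h1
  omega

/-- Ranks on the graph level. -/
theorem rk_two (K : Type*) [Field K] {W : Finset (Fin 6)}
    (L : List (List (Finset (Fin 6) × ℤ) × Finset (Fin 6)))
    (h1 : L.Pairwise (fun p q => ev p.1 q.2 = 0))
    (h2 : ∀ p ∈ L, ev p.1 p.2 = 1 ∨ ev p.1 p.2 = -1)
    (h3 : ∀ p ∈ L, Lk nf9 W p.2 ∧ p.2.card = 2)
    (h4 : ((univ : Finset (Finset (Fin 6))).filter fun T => Lk nf9 W T ∧ T.card = 1).card =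
      L.length + 1) (h5 : ∃ v, Lk nf9 W {v}) : rk K (Lk nf9 W) 2 = L.length := by
  have h6 := rk_ge_of_cert K (P := Lk nf9 W) (i := 2) L h1 (by
    intro p hp
    rcases h2 p hp with h | h <;> rw [h] <;> simp) h3
  have h7 := hm_add K (Lk_down nf9 W) 1
  rw [nf_eq_card, h4, rk_one K (Lk_down nf9 W) h5] at h7
  simp only [Nat.reduceAdd] at h7
  omega

theorem rk_two_0 (K : Type*) [Field K] : rk K (Lk nf9 univ) 2 = 5 :=
  rk_two K (W := univ)
    [([({5}, 1)], {0, 5}), ([({4}, 1)], {0, 4}), ([({3}, 1)], {0, 3}), ([({1}, 1)], {0, 1}), ([({0}, 1)], {0, 2})]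
    (by decide) (by decide) (by decide) (by decide) (by decide)

theorem rk_two_1 (K : Type*) [Field K] : rk K (Lk nf9 {0, 1, 2, 3, 4}) 2 = 4 :=
  rk_two K (W := {0, 1, 2, 3, 4})
    [([({3}, 1)], {2, 3}), ([({2}, 1)], {1, 2}), ([({1}, 1)], {0, 1}), ([({0}, 1)], {0, 4})]
    (by decide) (by decide) (by decide) (by decide) (by decide)

theorem rk_two_2 (K : Type*) [Field K] : rk K (Lk nf9 {0, 1, 2, 3, 5}) 2 = 4 :=
  rk_two K (W := {0, 1, 2, 3, 5})
    [([({3}, 1)], {1, 3}), ([({1}, 1)], {1, 2}), ([({2}, 1)], {0, 2}), ([({0}, 1)], {0, 5})]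
    (by decide) (by decide) (by decide) (by decide) (by decide)

theorem rk_two_3 (K : Type*) [Field K] : rk K (Lk nf9 {0, 1, 2, 4, 5}) 2 = 4 :=
  rk_two K (W := {0, 1, 2, 4, 5})
    [([({4}, 1)], {1, 4}), ([({1}, 1)], {0, 1}), ([({0}, 1)], {0, 2}), ([({2}, 1)], {2, 5})]
    (by decide) (by decide) (by decide) (by decide) (by decide)

theorem rk_two_4 (K : Type*) [Field K] : rk K (Lk nf9 {0, 1, 3, 4, 5}) 2 = 4 :=
  rk_two K (W := {0, 1, 3, 4, 5})
    [([({3}, 1)], {0, 3}), ([({0}, 1)], {0, 4}), ([({4}, 1)], {1, 4}), ([({1}, 1)], {1, 5})]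
    (by decide) (by decide) (by decide) (by decide) (by decide)

theorem rk_two_5 (K : Type*) [Field K] : rk K (Lk nf9 {0, 2, 3, 4, 5}) 2 = 4 :=
  rk_two K (W := {0, 2, 3, 4, 5})
    [([({3}, 1)], {0, 3}), ([({0}, 1)], {0, 5}), ([({4}, 1)], {2, 4}), ([({2}, 1)], {2, 5})]
    (by decide) (by decide) (by decide) (by decide) (by decide)

theorem rk_two_6 (K : Type*) [Field K] : rk K (Lk nf9 {1, 2, 3, 4, 5}) 2 = 4 :=
  rk_two K (W := {1, 2, 3, 4, 5})
    [([({4}, 1)], {2, 4}), ([({2}, 1)], {2, 3}), ([({3}, 1)], {1, 3}), ([({1}, 1)], {1, 5})]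
    (by decide) (by decide) (by decide) (by decide) (by decide)

theorem rk_two_nf9 (K : Type*) [Field K] (W : Finset (Fin 6)) (hW : 5 ≤ W.card) :
    rk K (Lk nf9 W) 2 = rk ℚ (Lk nf9 W) 2 := by
  have hcases : W = univ ∨ W = {0, 1, 2, 3, 4} ∨ W = {0, 1, 2, 3, 5} ∨ W = {0, 1, 2, 4, 5} ∨
      W = {0, 1, 3, 4, 5} ∨ W = {0, 2, 3, 4, 5} ∨ W = {1, 2, 3, 4, 5} := by
    revert W; decide
  rcases hcases with h | h | h | h | h | h | h
  · rw [h, rk_two_0 K, rk_two_0 ℚ]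
  · rw [h, rk_two_1 K, rk_two_1 ℚ]
  · rw [h, rk_two_2 K, rk_two_2 ℚ]
  · rw [h, rk_two_3 K, rk_two_3 ℚ]
  · rw [h, rk_two_4 K, rk_two_4 ℚ]
  · rw [h, rk_two_5 K, rk_two_5 ℚ]
  · rw [h, rk_two_6 K, rk_two_6 ℚ]

/-- The ranks for the nine nonfaces do not depend on the field. -/
theorem rk_nf9 (K : Type*) [Field K] (W : Finset (Fin 6)) (i : ℕ) :
    rk K (Lk nf9 W) i = rk ℚ (Lk nf9 W) i := by
  have hc : W.card ≤ 6 := by
    have := Finset.card_le_univ W
    rwa [Fintype.card_fin] at this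
  rcases i with _ | _ | _ | _ | i
  · rw [rk_zero, rk_zero]
  · by_cases h : ∃ v, Lk nf9 W {v}
    · rw [zero_add, rk_one K (Lk_down nf9 W) h, rk_one ℚ (Lk_down nf9 W) h]
    · have h1 : nf (Lk nf9 W) (0 + 1) = 0 := by
        refine nf_eq_zero fun T hT hc1 => ?_
        obtain ⟨v, rfl⟩ := Finset.card_eq_one.1 hc1
        exact h ⟨v, hT⟩
      rw [rk_of_nf K h1, rk_of_nf ℚ h1]
  · by_cases h : 5 ≤ W.card
    · exact rk_two_nf9 K W h
    · have h1 := nf_big card_nf9 W (0 + 1 + 1) (by omega)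
      rw [rk_of_nf K h1, rk_of_nf ℚ h1]
  · by_cases h : W.card = 6
    · have hW : W = univ := Finset.eq_univ_of_card W (by rw [h]; rfl)
      subst hW
      have key : ∀ (F : Type _) [Field F], rk F (Lk nf9 univ) 3 = 9 := by
        intro F _
        have h2 := rk_ge_of_cert F (P := Lk nf9 univ) (i := 3) c9 c9_pw (c9_ne' _) c9_mem
        have h3 : c9.length = 9 := rfl
        have h4 := rk_le_nf F (Lk nf9 univ) 3
        rw [nf3_9] at h4
        omega
      have key2 : rk ℚ (Lk nf9 univ) 3 = 9 := by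
        have h2 := rk_ge_of_cert ℚ (P := Lk nf9 univ) (i := 3) c9 c9_pw (c9_ne' _) c9_mem
        have h3 : c9.length = 9 := rfl
        have h4 := rk_le_nf ℚ (Lk nf9 univ) 3
        rw [nf3_9] at h4
        omega
      exact (key K).trans key2.symm
    · have h1 := nf_big card_nf9 W (0 + 1 + 1 + 1) (by omega)
      rw [rk_of_nf K h1, rk_of_nf ℚ h1]
  · have h1 := nf_big card_nf9 W (i + 1 + 1 + 1 + 1) (by omega)
    rw [rk_of_nf K h1, rk_of_nf ℚ h1]

theorem hm_nf9 (K : Type*) [Field K] (W : Finset (Fin 6)) (i : ℕ) :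
    hm K (Lk nf9 W) i = hm ℚ (Lk nf9 W) i :=
  hm_congr K (Lk_down nf9 W) (fun j => rk_nf9 K W j) i

end Pool.Agent.R690.Kos
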