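import Pool.Agent.R690.Kos.Strand
import Pool.Agent.R690.Kos.RP2

set_option autoImplicit false

/-!
# The ideal `(x^2, m^4, x m^2 J)` with `J` the ideal of the projective plane, and its powers
-/

namespace Pool.Agent.R690.Kos

open Finset

/-- The exponent vector with entries `w` and last entry `p`. -/
noncomputable def mkv {n : ℕ} (w : Fin n → ℕ) (p : ℕ) : Fin (n + 1) →₀ ℕ :=
  Finsupp.equivFunOnFinite.symm (Fin.snoc (α := fun _ => ℕ) w p)

theorem mkv_last {n : ℕ} (w : Fin n → ℕ) (p : ℕ) : mkv w p (Fin.last n) = p := by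
  simp [mkv]

theorem mkv_cast {n : ℕ} (w : Fin n → ℕ) (p : ℕ) (k : Fin n) : mkv w p k.castSucc = w k := by
  simp [mkv]

theorem ext_last {n : ℕ} {u v : Fin (n + 1) →₀ ℕ} (h1 : u (Fin.last n) = v (Fin.last n))
    (h2 : ∀ k : Fin n, u k.castSucc = v k.castSucc) : u = v := by
  ext k
  induction k using Fin.lastCases with
  | last => exact h1
  | cast k => exact h2 k

theorem mkv_add {n : ℕ} (w w' : Fin n → ℕ) (p p' : ℕ) :
    mkv w p + mkv w' p' = mkv (fun k => w k + w' k) (p + p') := by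
  apply ext_last
  · rw [Finsupp.coe_add, Pi.add_apply, mkv_last, mkv_last, mkv_last]
  · intro k
    rw [Finsupp.coe_add, Pi.add_apply, mkv_cast, mkv_cast, mkv_cast]

theorem mkv_zero {n : ℕ} : mkv (fun _ : Fin n => 0) 0 = 0 := by
  apply ext_last
  · rw [mkv_last]; rfl
  · intro k; rw [mkv_cast]; rfl

theorem mkv_congr {n : ℕ} {w w' : Fin n → ℕ} {p p' : ℕ} (h1 : ∀ k, w k = w' k) (h2 : p = p') :
    mkv w p = mkv w' p' := by
  rw [funext h1, h2]

/-- The indicator of a set. -/
def ind {n : ℕ} (T : Finset (Fin n)) (k : Fin n) : ℕ := if k ∈ T then 1 else 0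

theorem add_mem_pw {n : ℕ} {G : Set (Fin n →₀ ℕ)} {ℓ : ℕ} {v g : Fin n →₀ ℕ} (hv : v ∈ pw G ℓ)
    (hg : g ∈ G) : v + g ∈ pw G (ℓ + 1) := ⟨v, hv, g, hg, rfl⟩

/-- Exponent vectors of the generators of `(x^2, m^4, x m^2 J)`. -/
def G0 : Set (Fin 7 →₀ ℕ) :=
  {u | u = mkv (fun _ : Fin 6 => 0) 2 ∨ u = mkv (fun _ : Fin 6 => 4) 0 ∨
    ∃ T ∈ nf10, u = mkv (fun k : Fin 6 => 2 + ind T k) 1}

theorem G0_finite : G0.Finite := by
  have : G0 = {mkv (fun _ : Fin 6 => 0) 2} ∪ ({mkv (fun _ : Fin 6 => 4) 0} ∪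
      (fun T : Finset (Fin 6) => mkv (fun k : Fin 6 => 2 + ind T k) 1) '' (nf10 : Set (Finset (Fin 6)))) := by
    ext u
    simp only [G0, Set.mem_ofPred_eq, Set.mem_union, Set.mem_singleton_iff, Set.mem_image,
      Finset.mem_coe]
    constructor
    · rintro (h | h | ⟨T, hT, h⟩)
      · exact Or.inl h
      · exact Or.inr (Or.inl h)
      · exact Or.inr (Or.inr ⟨T, hT, h.symm⟩)
    · rintro (h | h | ⟨T, hT, h⟩)
      · exact Or.inl h
      · exact Or.inr (Or.inl h)
      · exact Or.inr (Or.inr ⟨T, hT, h.symm⟩)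
  rw [this]
  exact (Set.finite_singleton _).union ((Set.finite_singleton _).union
    (nf10.finite_toSet.image _))

theorem pw_G0_low (ℓ : ℕ) (u : Fin 7 →₀ ℕ) (hu : u ∈ pw G0 ℓ) :
    ∃ r s : ℕ, r + s ≤ ℓ ∧ u (Fin.last 6) + (r + 2 * s) = 2 * ℓ ∧
      (∀ k : Fin 6, 2 * (r + 2 * s) ≤ u k.castSucc) ∧
      (1 ≤ r → ∃ T ∈ nf10, ∀ k ∈ T, 2 * (r + 2 * s) + 1 ≤ u k.castSucc) := by
  induction ℓ generalizing u with
  | zero =>
    rw [pw, Set.mem_singleton_iff] at hu
    subst hu
    exact ⟨0, 0, by omega, by simp, fun k => by simp, fun h => by omega⟩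
  | succ ℓ ih =>
    obtain ⟨v, hv, g, hg, rfl⟩ := hu
    obtain ⟨r, s, h1, h2, h3, h4⟩ := ih v hv
    rcases hg with rfl | rfl | ⟨T, hT, rfl⟩
    · refine ⟨r, s, by omega, ?_, fun k => ?_, fun hr => ?_⟩
      · rw [Finsupp.coe_add, Pi.add_apply, mkv_last]; omega
      · rw [Finsupp.coe_add, Pi.add_apply, mkv_cast]; exact h3 k
      · obtain ⟨T, hT, h5⟩ := h4 hr
        refine ⟨T, hT, fun k hk => ?_⟩
        rw [Finsupp.coe_add, Pi.add_apply, mkv_cast]; exact h5 k hk
    · refine ⟨r, s + 1, by omega, ?_, fun k => ?_, fun hr => ?_⟩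
      · rw [Finsupp.coe_add, Pi.add_apply, mkv_last]; omega
      · rw [Finsupp.coe_add, Pi.add_apply, mkv_cast]
        have := h3 k; omega
      · obtain ⟨T, hT, h5⟩ := h4 hr
        refine ⟨T, hT, fun k hk => ?_⟩
        rw [Finsupp.coe_add, Pi.add_apply, mkv_cast]
        have := h5 k hk; omega
    · refine ⟨r + 1, s, by omega, ?_, fun k => ?_, fun _ => ⟨T, hT, fun k hk => ?_⟩⟩
      · rw [Finsupp.coe_add, Pi.add_apply, mkv_last]; omega
      · rw [Finsupp.coe_add, Pi.add_apply, mkv_cast]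
        have := h3 k; omega
      · rw [Finsupp.coe_add, Pi.add_apply, mkv_cast, ind, if_pos hk]
        have := h3 k; omega

theorem pw_G0_even (s t : ℕ) : mkv (fun _ : Fin 6 => 4 * s) (2 * t) ∈ pw G0 (s + t) := by
  induction t with
  | zero =>
    induction s with
    | zero =>
      rw [pw, Set.mem_singleton_iff]
      exact mkv_zero
    | succ s ih =>
      have := add_mem_pw ih (show mkv (fun _ : Fin 6 => 4) 0 ∈ G0 from Or.inr (Or.inl rfl))
      rw [mkv_add] at this
      have h2 : s + 1 + 0 = s + 0 + 1 := by omega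
      rw [h2, mkv_congr (w' := fun _ => 4 * s + 4) (p' := 2 * 0 + 0) (fun k => by omega) rfl]
      exact this
  | succ t ih =>
    have := add_mem_pw ih (show mkv (fun _ : Fin 6 => 0) 2 ∈ G0 from Or.inl rfl)
    rw [mkv_add] at this
    have h2 : s + (t + 1) = s + t + 1 := by omega
    rw [h2, mkv_congr (w' := fun _ => 4 * s + 0) (p' := 2 * t + 2) (fun k => by omega) (by omega)]
    exact this

theorem pw_G0_odd (s t : ℕ) {T : Finset (Fin 6)} (hT : T ∈ nf10) :
    mkv (fun k : Fin 6 => 4 * s + (2 + ind T k)) (2 * t + 1) ∈ pw G0 (s + t + 1) := by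
  have := add_mem_pw (pw_G0_even s t) (show mkv (fun k : Fin 6 => 2 + ind T k) 1 ∈ G0 from
    Or.inr (Or.inr ⟨T, hT, rfl⟩))
  rwa [mkv_add] at this

/-- The types of the layers. -/
def F0 (j : ℕ) : Finset (Finset (Fin 6)) := if j % 2 = 0 then {∅} else nf10

theorem lay0 (ℓ : ℕ) : Lay (n := 6) (pw G0 ℓ) (2 * ℓ) (fun j => j ≤ 2 * ℓ) (fun j _ => 2 * j) F0 where
  pos := by norm_num
  ly := by
    intro p w
    constructor
    · rintro ⟨u, hu, hp, hw⟩
      obtain ⟨r, s, h1, h2, h3, h4⟩ := pw_G0_low ℓ u hu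
      refine ⟨r + 2 * s, by omega, by omega, fun k => (h3 k).trans (hw k), ?_⟩
      rw [F0]
      split_ifs with hpar
      · exact ⟨∅, by simp, Finset.empty_subset _⟩
      · obtain ⟨T, hT, h5⟩ := h4 (by omega)
        refine ⟨T, hT, fun k hk => ?_⟩
        simp only [mem_filter, mem_univ, true_and]
        have := h5 k hk
        have := hw k
        omega
    · rintro ⟨j, hj, hN, hc, hX⟩
      rw [F0] at hX
      split_ifs at hX with hpar
      · have hm := pw_G0_even (j / 2) (ℓ - j / 2)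
        have h2 : j / 2 + (ℓ - j / 2) = ℓ := by omega
        rw [h2] at hm
        refine ⟨_, hm, ?_, ?_⟩
        · rw [mkv_last]; omega
        · intro k
          rw [mkv_cast]
          have := hc k
          beta_reduce at this
          omega
      · obtain ⟨T, hT, hTW⟩ := hX
        have hm := pw_G0_odd (j / 2) (ℓ - j / 2 - 1) hT
        have h2 : j / 2 + (ℓ - j / 2 - 1) + 1 = ℓ := by omega
        rw [h2] at hm
        refine ⟨_, hm, ?_, ?_⟩
        · rw [mkv_last]; omega
        · intro k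
          rw [mkv_cast, ind]
          have h5 := hc k
          beta_reduce at h5
          split_ifs with hk
          · have := hTW hk
            simp only [mem_filter, mem_univ, true_and] at this
            omega
          · omega
  mono := by
    intro j j' _ _ h k
    beta_reduce
    omega
  top := by
    intro j _
    rw [F0]
    split_ifs
    · exact ⟨∅, by simp, Finset.empty_subset _⟩
    · exact ⟨{0, 1, 2}, by decide, Finset.subset_univ _⟩

end Pool.Agent.R690.Kos
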