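import Mathlib

set_option autoImplicit false

/-!
# Ranks of integer families over different fields
-/

namespace Pool.Agent.R690.Kos

open Finset

/-- The integer vector `v` read over the field `K`. -/
def cv (K : Type*) [Field K] {κ : Type*} (v : κ → ℤ) : κ → K := fun k => (v k : K)

/-- The rank over `K` of a family of integer vectors. -/
noncomputable def frk (K : Type*) [Field K] {ι κ : Type*} (v : ι → κ → ℤ) : ℕ :=
  Module.finrank K (Submodule.span K (Set.range fun i => cv K (v i)))

theorem li_rat {ι κ : Type*} [Finite ι] {K : Type*} [Field K] {v : ι → κ → ℤ}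
    (h : LinearIndependent K fun i => cv K (v i)) : LinearIndependent ℚ fun i => cv ℚ (v i) := by
  classical
  cases nonempty_fintype ι
  rw [← LinearIndependent.iff_fractionRing (R := ℤ) (K := ℚ)]
  rw [Fintype.linearIndependent_iff] at h ⊢
  intro g hg
  by_contra hne
  push Not at hne
  obtain ⟨i0, hi0⟩ := hne
  have hg' : ∀ k, ∑ i, g i * v i k = 0 := by
    intro k
    have := congrFun hg k
    rw [Finset.sum_apply] at this
    simp only [Pi.smul_apply, Pi.zero_apply] at this
    simp only [cv, zsmul_eq_mul] at this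
    exact_mod_cast this
  have hne : (univ : Finset ι).Nonempty := ⟨i0, mem_univ _⟩
  obtain ⟨g', hg1, hg2⟩ := Finset.extract_gcd g hne
  have hd : univ.gcd g ≠ 0 := by
    intro h0
    exact hi0 (by rw [hg1 i0 (mem_univ _), h0, zero_mul])
  have hg3 : ∀ k, ∑ i, g' i * v i k = 0 := by
    intro k
    have h1 := hg' k
    have h2 : ∑ i, g i * v i k = univ.gcd g * ∑ i, g' i * v i k := by
      rw [Finset.mul_sum]
      refine Finset.sum_congr rfl fun i _ => ?_
      rw [hg1 i (mem_univ _)]; ring
    rw [h2] at h1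
    exact (mul_eq_zero.1 h1).resolve_left hd
  have h4 : ∀ i, ((g' i : ℤ) : K) = 0 := by
    apply h (fun i => ((g' i : ℤ) : K))
    funext k
    simp only [cv, Finset.sum_apply, Pi.smul_apply, smul_eq_mul, Pi.zero_apply]
    have := congrArg (Int.cast (R := K)) (hg3 k)
    push_cast at this
    exact this
  obtain ⟨p, hp⟩ := CharP.exists K
  have h5 : (p : ℤ) ∣ univ.gcd g' := by
    refine Finset.dvd_gcd fun i _ => ?_
    exact (CharP.intCast_eq_zero_iff K p (g' i)).1 (h4 i)
  rw [hg2] at h5
  have h6 : ((1 : ℤ) : K) = 0 := (CharP.intCast_eq_zero_iff K p 1).2 h5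
  simp at h6

theorem frk_le_rat {ι κ : Type*} [Finite ι] [Finite κ] (K : Type*) [Field K] (v : ι → κ → ℤ) :
    frk K v ≤ frk ℚ v := by
  classical
  obtain ⟨κ', a, ha, hs, hl⟩ := exists_linearIndependent' K fun i => cv K (v i)
  have hfin : Finite κ' := Finite.of_injective a ha
  cases nonempty_fintype κ'
  have h1 : frk K v = Fintype.card κ' := by
    rw [frk, ← hs]
    exact finrank_span_eq_card hl
  have h2 : LinearIndependent ℚ fun i => cv ℚ (v (a i)) := li_rat hl
  rw [h1, ← finrank_span_eq_card h2, frk]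
  refine Submodule.finrank_mono (Submodule.span_mono ?_)
  rintro _ ⟨i, rfl⟩
  exact ⟨a i, rfl⟩

theorem frk_rat_le {ι κ : Type*} [Finite ι] [Finite κ] (v : ι → κ → ℤ) :
    ∃ N : ℕ, N ≠ 0 ∧ ∀ (K : Type) [Field K], (N : K) ≠ 0 → frk ℚ v ≤ frk K v := by
  classical
  cases nonempty_fintype κ
  obtain ⟨κ', a, ha, hs, hl⟩ := exists_linearIndependent' ℚ fun i => cv ℚ (v i)
  have hfin : Finite κ' := Finite.of_injective a ha
  cases nonempty_fintype κ'
  have h1 : frk ℚ v = Fintype.card κ' := by
    rw [frk, ← hs]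
    exact finrank_span_eq_card hl
  -- a left inverse over the rationals
  have h2 : ∃ L : (κ → ℚ) →ₗ[ℚ] (κ' → ℚ), ∀ j, L (cv ℚ (v (a j))) = Pi.single j 1 := by
    let f : (κ' → ℚ) →ₗ[ℚ] (κ → ℚ) := Fintype.linearCombination ℚ (fun j => cv ℚ (v (a j)))
    have hf : LinearMap.ker f = ⊥ := by
      rw [LinearMap.ker_eq_bot']
      intro m hm
      have := Fintype.linearIndependent_iff.1 hl m (by
        simpa [f, Fintype.linearCombination_apply] using hm)
      funext j; exact this j
    obtain ⟨L, hL⟩ := LinearMap.exists_leftInverse_of_injective f hf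
    refine ⟨L, fun j => ?_⟩
    have h3 : f (Pi.single j 1) = cv ℚ (v (a j)) := by
      simp [f, Fintype.linearCombination_apply, Pi.single_apply]
    rw [← h3]
    exact LinearMap.congr_fun hL (Pi.single j 1)
  obtain ⟨L, hL⟩ := h2
  obtain ⟨b, hb⟩ := IsLocalization.exist_integer_multiples_of_finite (nonZeroDivisors ℤ)
    (fun q : κ' × κ => L (Pi.single q.2 1) q.1)
  choose M hM using hb
  have hb0 : (b : ℤ) ≠ 0 := nonZeroDivisors.coe_ne_zero b
  have key : ∀ j j', ∑ k, M (j, k) * v (a j') k = if j = j' then (b : ℤ) else 0 := by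
    intro j j'
    have h3 := congrFun (hL j') j
    have h4 : cv ℚ (v (a j')) = ∑ k, ((v (a j') k : ℤ) : ℚ) • (Pi.single k 1 : κ → ℚ) := by
      funext k
      simp [cv, Finset.sum_apply, Pi.single_apply]
    rw [h4, map_sum, Finset.sum_apply] at h3
    have h5 : ∀ k, ((M (j, k) : ℤ) : ℚ) = ((b : ℤ) : ℚ) * L (Pi.single k 1) j := by
      intro k
      have := hM (j, k)
      simp only [algebraMap_int_eq, eq_intCast, zsmul_eq_mul] at this
      exact this
    have h6 : ((∑ k, M (j, k) * v (a j') k : ℤ) : ℚ) =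
        ((b : ℤ) : ℚ) * (Pi.single j' (1 : ℚ) : κ' → ℚ) j := by
      rw [← h3, Finset.mul_sum]
      push_cast
      refine Finset.sum_congr rfl fun k _ => ?_
      rw [h5 k, map_smul, Pi.smul_apply, smul_eq_mul]; ring
    rw [Pi.single_apply] at h6
    split_ifs at h6 ⊢ with h7
    · rw [mul_one] at h6; exact_mod_cast h6
    · rw [mul_zero] at h6; exact_mod_cast h6
  refine ⟨(b : ℤ).natAbs, by simpa using hb0, ?_⟩
  intro K _ hN
  have hbK : ((b : ℤ) : K) ≠ 0 := by
    intro h
    apply hN
    have : (((b : ℤ).natAbs : ℤ) : K) = 0 := by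
      rcases Int.natAbs_eq (b : ℤ) with h' | h'
      · rw [← h']; exact h
      · have h'' : (((b : ℤ).natAbs : ℤ)) = -(b : ℤ) := by omega
        rw [h'']; push_cast; rw [h]; simp
    rw [Int.cast_natCast] at this
    exact this
  have hlK : LinearIndependent K fun j => cv K (v (a j)) := by
    rw [Fintype.linearIndependent_iff]
    intro g hg j
    have h7 : ∑ k, (M (j, k) : K) * (∑ j', g j' * (v (a j') k : K)) = g j * ((b : ℤ) : K) := by
      simp only [Finset.mul_sum]
      rw [Finset.sum_comm]
      have h8 : ∀ j', ∑ k, (M (j, k) : K) * (g j' * (v (a j') k : K)) =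
          g j' * (if j = j' then ((b : ℤ) : K) else 0) := by
        intro j'
        have := congrArg (Int.cast (R := K)) (key j j')
        push_cast at this
        rw [← this, Finset.mul_sum]
        refine Finset.sum_congr rfl fun k _ => by ring
      rw [Finset.sum_congr rfl fun j' _ => h8 j']
      simp
    have h9 : ∀ k, ∑ j', g j' * (v (a j') k : K) = 0 := by
      intro k
      have := congrFun hg k
      simpa [cv, Finset.sum_apply] using this
    simp only [h9, mul_zero, Finset.sum_const_zero] at h7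
    exact (mul_eq_zero.1 h7.symm).resolve_right hbK
  rw [h1, ← finrank_span_eq_card hlK, frk]
  refine Submodule.finrank_mono (Submodule.span_mono ?_)
  rintro _ ⟨i, rfl⟩
  exact ⟨a i, rfl⟩

end Pool.Agent.R690.Kos
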