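import Pool.Agent.R690.Kos.KodEx

set_option autoImplicit false
set_option maxRecDepth 100000

/-!
# Second Betti numbers of the ideal of the projective plane
-/

namespace Pool.Agent.R690.Kos

open Finset

/-- The homology on the graph level. -/
theorem hm_two (K : Type*) [Field K] {W : Finset (Fin 6)} (m : ℕ)
    (L : List (List (Finset (Fin 6) × ℤ) × Finset (Fin 6)))
    (h1 : L.Pairwise (fun p q => ev p.1 q.2 = 0))
    (h2 : ∀ p ∈ L, ev p.1 p.2 = 1 ∨ ev p.1 p.2 = -1)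
    (h3 : ∀ p ∈ L, Lk nf10 W p.2 ∧ p.2.card = 2)
    (h4 : ((univ : Finset (Finset (Fin 6))).filter fun T => Lk nf10 W T ∧ T.card = 1).card =
      L.length + 1) (h5 : ∃ v, Lk nf10 W {v})
    (h6 : ((univ : Finset (Finset (Fin 6))).filter fun T => Lk nf10 W T ∧ T.card = 2).card =
      L.length + m) : hm K (Lk nf10 W) 2 + rk K (Lk nf10 W) 3 = m := by
  have h7 := rk_ge_of_cert K (P := Lk nf10 W) (i := 2) L h1 (by
    intro p hp
    rcases h2 p hp with h | h <;> rw [h] <;> simp) h3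
  have h8 := hm_add K (Lk_down nf10 W) 1
  rw [nf_eq_card, h4, rk_one K (Lk_down nf10 W) h5] at h8
  have h9 := hm_add K (Lk_down nf10 W) 2
  rw [nf_eq_card, h6] at h9
  simp only [Nat.reduceAdd] at h8 h9
  omega

theorem hm_two_0 (K : Type*) [Field K] :
    hm K (Lk nf10 univ) 2 + rk K (Lk nf10 univ) 3 = 10 :=
  hm_two K (W := univ) 10
    [([({5}, 1)], {0, 5}), ([({4}, 1)], {0, 4}), ([({3}, 1)], {0, 3}), ([({1}, 1)], {0, 1}), ([({0}, 1)], {0, 2})]
    (by decide) (by decide) (by decide) (by decide) (by decide) (by decide)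

theorem hm_two_1 (K : Type*) [Field K] :
    hm K (Lk nf10 {0, 1, 2, 3, 4}) 2 + rk K (Lk nf10 {0, 1, 2, 3, 4}) 3 = 1 :=
  hm_two K (W := {0, 1, 2, 3, 4}) 1
    [([({3}, 1)], {2, 3}), ([({2}, 1)], {1, 2}), ([({1}, 1)], {0, 1}), ([({0}, 1)], {0, 4})]
    (by decide) (by decide) (by decide) (by decide) (by decide) (by decide)

theorem hm_two_2 (K : Type*) [Field K] :
    hm K (Lk nf10 {0, 1, 2, 3, 5}) 2 + rk K (Lk nf10 {0, 1, 2, 3, 5}) 3 = 1 :=
  hm_two K (W := {0, 1, 2, 3, 5}) 1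
    [([({3}, 1)], {1, 3}), ([({1}, 1)], {1, 2}), ([({2}, 1)], {0, 2}), ([({0}, 1)], {0, 5})]
    (by decide) (by decide) (by decide) (by decide) (by decide) (by decide)

theorem hm_two_3 (K : Type*) [Field K] :
    hm K (Lk nf10 {0, 1, 2, 4, 5}) 2 + rk K (Lk nf10 {0, 1, 2, 4, 5}) 3 = 1 :=
  hm_two K (W := {0, 1, 2, 4, 5}) 1
    [([({4}, 1)], {1, 4}), ([({1}, 1)], {0, 1}), ([({0}, 1)], {0, 2}), ([({2}, 1)], {2, 5})]
    (by decide) (by decide) (by decide) (by decide) (by decide) (by decide)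

theorem hm_two_4 (K : Type*) [Field K] :
    hm K (Lk nf10 {0, 1, 3, 4, 5}) 2 + rk K (Lk nf10 {0, 1, 3, 4, 5}) 3 = 1 :=
  hm_two K (W := {0, 1, 3, 4, 5}) 1
    [([({3}, 1)], {0, 3}), ([({0}, 1)], {0, 4}), ([({4}, 1)], {1, 4}), ([({1}, 1)], {1, 5})]
    (by decide) (by decide) (by decide) (by decide) (by decide) (by decide)

theorem hm_two_5 (K : Type*) [Field K] :
    hm K (Lk nf10 {0, 2, 3, 4, 5}) 2 + rk K (Lk nf10 {0, 2, 3, 4, 5}) 3 = 1 :=
  hm_two K (W := {0, 2, 3, 4, 5}) 1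
    [([({3}, 1)], {0, 3}), ([({0}, 1)], {0, 5}), ([({4}, 1)], {2, 4}), ([({2}, 1)], {2, 5})]
    (by decide) (by decide) (by decide) (by decide) (by decide) (by decide)

theorem hm_two_6 (K : Type*) [Field K] :
    hm K (Lk nf10 {1, 2, 3, 4, 5}) 2 + rk K (Lk nf10 {1, 2, 3, 4, 5}) 3 = 1 :=
  hm_two K (W := {1, 2, 3, 4, 5}) 1
    [([({4}, 1)], {2, 4}), ([({2}, 1)], {2, 3}), ([({3}, 1)], {1, 3}), ([({1}, 1)], {1, 5})]
    (by decide) (by decide) (by decide) (by decide) (by decide) (by decide)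

/-- The sets of five elements have one-dimensional homology in degree two. -/
theorem hm_two_five (K : Type*) [Field K] (W : Finset (Fin 6)) (hW : W.card = 5) :
    hm K (Lk nf10 W) 2 = 1 := by
  have hcases : W = {0, 1, 2, 3, 4} ∨ W = {0, 1, 2, 3, 5} ∨ W = {0, 1, 2, 4, 5} ∨
      W = {0, 1, 3, 4, 5} ∨ W = {0, 2, 3, 4, 5} ∨ W = {1, 2, 3, 4, 5} := by
    revert W; decide
  have h3 := rk_of_nf K (nf_big card_nf10 W 3 (by omega))
  rcases hcases with h | h | h | h | h | h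
  · rw [h] at h3 ⊢; have := hm_two_1 K; omega
  · rw [h] at h3 ⊢; have := hm_two_2 K; omega
  · rw [h] at h3 ⊢; have := hm_two_3 K; omega
  · rw [h] at h3 ⊢; have := hm_two_4 K; omega
  · rw [h] at h3 ⊢; have := hm_two_5 K; omega
  · rw [h] at h3 ⊢; have := hm_two_6 K; omega

theorem hm_two_small (K : Type*) [Field K] (W : Finset (Fin 6)) (hW : W.card < 5) :
    hm K (Lk nf10 W) 2 = 0 := by
  have h1 := hm_add K (Lk_down nf10 W) 2
  rw [nf_big card_nf10 W 2 (by omega)] at h1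
  omega

theorem hm_two_rat : hm ℚ (Lk nf10 univ) 2 = 0 := by
  have h1 := hm_two_0 ℚ
  have h2 := hm_add ℚ (Lk_down nf10 univ) 3
  rw [nf3_10, hm10_rat, rk_of_nf ℚ (nf_big card_nf10 univ (3 + 1) (by decide))] at h2
  omega

theorem hm_two_two : hm (ZMod 2) (Lk nf10 univ) 2 = 1 := by
  have h1 := hm_two_0 (ZMod 2)
  have h2 := hm_add (ZMod 2) (Lk_down nf10 univ) 3
  rw [nf3_10, hm10_two, rk_of_nf (ZMod 2) (nf_big card_nf10 univ (3 + 1) (by decide))] at h2
  omega

/-- The number of second syzygies of the ideal of the projective plane. -/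
theorem sum_two (K : Type*) [Field K] :
    ∑ W : Finset (Fin 6), hm K (Lk nf10 W) 2 = 6 + hm K (Lk nf10 univ) 2 := by
  have h1 : ∀ W : Finset (Fin 6), hm K (Lk nf10 W) 2 =
      (if W.card = 5 then 1 else 0) + (if W = univ then hm K (Lk nf10 univ) 2 else 0) := by
    intro W
    by_cases h5 : W.card = 5
    · have hW : W ≠ univ := by rintro rfl; exact absurd h5 (by decide)
      rw [hm_two_five K W h5, if_pos h5, if_neg hW]
    · by_cases hW : W = univ
      · rw [if_neg h5, if_pos hW, hW, zero_add]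
      · have hc : W.card ≤ 6 := by
          have := Finset.card_le_univ W
          rwa [Fintype.card_fin] at this
        have h6 : W.card ≠ 6 := by
          intro h
          exact hW (Finset.eq_univ_of_card W (by rw [h]; rfl))
        rw [hm_two_small K W (by omega), if_neg h5, if_neg hW]
  rw [Finset.sum_congr rfl fun W _ => h1 W, Finset.sum_add_distrib, Finset.sum_ite_eq' univ univ]
  congr 1

end Pool.Agent.R690.Kos
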