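import Pool.Agent.R690.Kos.Cx

set_option autoImplicit false

/-!
# Ranks over different fields, cones, and adding one vertex
-/

namespace Pool.Agent.R690.Kos

open Finset

variable {n : ℕ}

section

variable (K : Type*) [Field K]

/-- The integer boundary vectors of the faces. -/
noncomputable def bv (P : Finset (Fin n) → Prop) (i : ℕ)
    (T : {T : Finset (Fin n) // P T ∧ T.card = i}) : Finset (Fin n) → ℤ :=
  bd ℤ n (Pi.single T.1 1)

theorem cv_bd (z : Finset (Fin n) → ℤ) : cv K (bd ℤ n z) = bd K n (cv K z) := by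
  funext T
  simp only [cv, bd_apply, ep]
  push_cast
  rfl

theorem cv_single (T : Finset (Fin n)) : cv K (Pi.single T (1 : ℤ)) = Pi.single T (1 : K) := by
  funext S
  by_cases h : S = T
  · subst h; simp [cv]
  · simp [cv, h]

theorem sc_eq_span (P : Finset (Fin n) → Prop) (i : ℕ) :
    sc K P i = Submodule.span K
      (Set.range fun T : {T : Finset (Fin n) // P T ∧ T.card = i} => (Pi.single T.1 (1 : K) :
        Finset (Fin n) → K)) := by
  classical
  apply le_antisymm
  · intro z hz
    have h1 : z = ∑ T, z T • (Pi.single T (1 : K) : Finset (Fin n) → K) := by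
      funext S
      simp [Finset.sum_apply, Pi.single_apply]
    rw [h1]
    refine Submodule.sum_mem _ fun T _ => ?_
    by_cases h : z T = 0
    · rw [h, zero_smul]; exact Submodule.zero_mem _
    · exact Submodule.smul_mem _ _ (Submodule.subset_span ⟨⟨T, hz T h⟩, rfl⟩)
  · rw [Submodule.span_le]
    rintro _ ⟨T, rfl⟩ S hS
    by_cases h : S = T.1
    · rw [h]; exact T.2
    · simp [h] at hS

theorem rk_eq_frk (P : Finset (Fin n) → Prop) (i : ℕ) : rk K P i = frk K (bv P i) := by
  rw [rk, frk, sc_eq_span, Submodule.map_span, ← Set.range_comp]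
  have : (⇑(bd K n) ∘ fun T : {T : Finset (Fin n) // P T ∧ T.card = i} =>
      (Pi.single T.1 (1 : K) : Finset (Fin n) → K)) = fun T => cv K (bv P i T) := by
    funext T
    simp only [Function.comp, bv]
    rw [cv_bd, cv_single]
  rw [this]

theorem rk_le_rat (P : Finset (Fin n) → Prop) (i : ℕ) : rk K P i ≤ rk ℚ P i := by
  rw [rk_eq_frk, rk_eq_frk]
  exact frk_le_rat K _

theorem hm_rat_le {P : Finset (Fin n) → Prop} (hP : Down P) (i : ℕ) : hm ℚ P i ≤ hm K P i := by
  have h1 := hm_add ℚ hP i
  have h2 := hm_add K hP i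
  have h3 := rk_le_rat K P i
  have h4 := rk_le_rat K P (i + 1)
  omega

theorem rk_zero (P : Finset (Fin n) → Prop) : rk K P 0 = 0 := by
  rw [rk]
  have : (sc K P 0).map (bd K n) = ⊥ := by
    rw [eq_bot_iff]
    rintro _ ⟨z, hz, rfl⟩
    rw [Submodule.mem_bot]
    funext T
    rw [bd_apply, Pi.zero_apply]
    refine Finset.sum_eq_zero fun t _ => ?_
    by_cases h : z (insert t T) = 0
    · rw [h, mul_zero]
    · have := (hz _ h).2
      rw [Finset.card_eq_zero] at this
      exact absurd this (Finset.insert_ne_empty t T)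
  rw [this, finrank_bot]

theorem nf_of_lt (P : Finset (Fin n) → Prop) {i : ℕ} (h : n < i) : nf P i = 0 := by
  rw [nf]
  have : IsEmpty {T : Finset (Fin n) // P T ∧ T.card = i} := by
    refine ⟨fun T => ?_⟩
    have h1 := T.2.2
    have h2 := Finset.card_le_univ T.1
    rw [Fintype.card_fin] at h2
    omega
  exact Nat.card_of_isEmpty

theorem rk_le_nf (P : Finset (Fin n) → Prop) (i : ℕ) : rk K P i ≤ nf P i := by
  have := rank_nullity K P i
  omega

/-- The homology depends only on the ranks. -/
theorem hm_congr {K' : Type*} [Field K'] {P : Finset (Fin n) → Prop} (hP : Down P)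
    (h : ∀ i, rk K P i = rk K' P i) (i : ℕ) : hm K P i = hm K' P i := by
  have h1 := hm_add K hP i
  have h2 := hm_add K' hP i
  have h3 := h i
  have h4 := h (i + 1)
  omega

/-- A void complex has no homology. -/
theorem hm_void {P : Finset (Fin n) → Prop} (hP : Down P) (h : ¬ P ∅) (i : ℕ) : hm K P i = 0 := by
  have h1 := hm_add K hP i
  have h2 : nf P i = 0 := by
    rw [nf]
    have : IsEmpty {T : Finset (Fin n) // P T ∧ T.card = i} :=
      ⟨fun T => h (hP _ _ T.2.1 (Finset.empty_subset _))⟩
    exact Nat.card_of_isEmpty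
  omega

theorem up_mem {P : Finset (Fin n) → Prop} {v : Fin n} (hv : ∀ T, P T → P (insert v T)) {i : ℕ}
    {z : Finset (Fin n) → K} (hz : z ∈ sc K P i) : up K v z ∈ sc K P (i + 1) := by
  intro T hT
  rw [up] at hT
  split_ifs at hT with h
  · have h1 := hz _ (right_ne_zero_of_mul hT)
    have h2 := hv _ h1.1
    rw [Finset.insert_erase h] at h2
    refine ⟨h2, ?_⟩
    have h3 := h1.2
    rw [Finset.card_erase_of_mem h] at h3
    have := Finset.card_pos.2 ⟨v, h⟩
    omega
  · exact absurd rfl hT

/-- Cones are acyclic. -/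
theorem hm_cone {P : Finset (Fin n) → Prop} (v : Fin n)
    (hv : ∀ T, P T → P (insert v T)) (i : ℕ) : hm K P i = 0 := by
  rw [hm, rk]
  have : sc K P i ⊓ LinearMap.ker (bd K n) ≤ (sc K P (i + 1)).map (bd K n) := by
    rintro z ⟨hz, hz'⟩
    refine ⟨up K v z, up_mem K hv hz, ?_⟩
    have h1 := bd_up K v z
    rw [SetLike.mem_coe, LinearMap.mem_ker] at hz'
    have h2 : up K v (0 : Finset (Fin n) → K) = 0 := by
      funext T; simp [up]
    rw [hz', h2, add_zero] at h1
    exact h1
  have := Submodule.finrank_mono this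
  omega

theorem exact_of_hm {P : Finset (Fin n) → Prop} (hP : Down P) {i : ℕ} (h : hm K P i = 0) :
    (sc K P (i + 1)).map (bd K n) = sc K P i ⊓ LinearMap.ker (bd K n) := by
  refine Submodule.eq_of_le_of_finrank_le ?_ ?_
  · rintro _ ⟨z, hz, rfl⟩
    exact ⟨bd_mem hP hz, by rw [SetLike.mem_coe, LinearMap.mem_ker, bd_bd]⟩
  · rw [hm, rk] at h
    omega

end

/-! ### Adding one vertex -/

/-- Embedding of subsets of `Fin n` into subsets of `Fin (n+1)`. -/
def io (T : Finset (Fin n)) : Finset (Fin (n + 1)) := T.map Fin.castSuccEmb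

/-- The trace of a subset of `Fin (n+1)` on `Fin n`. -/
def pr (T : Finset (Fin (n + 1))) : Finset (Fin n) := univ.filter fun k => k.castSucc ∈ T

theorem mem_io {T : Finset (Fin n)} {k : Fin n} : k.castSucc ∈ io T ↔ k ∈ T := by
  simp [io]

theorem last_notMem_io (T : Finset (Fin n)) : Fin.last n ∉ io T := by
  simp only [io, mem_map, Fin.coe_castSuccEmb, not_exists, not_and]
  intro x _ h
  exact absurd h (Fin.castSucc_lt_last x).ne

theorem pr_io (T : Finset (Fin n)) : pr (io T) = T := by
  ext k; simp [pr, mem_io]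

theorem pr_insert (T : Finset (Fin n)) : pr (insert (Fin.last n) (io T)) = T := by
  ext k
  simp only [pr, mem_filter, mem_univ, true_and, mem_insert, mem_io, or_iff_right_iff_imp]
  intro h
  exact absurd h (Fin.castSucc_lt_last k).ne

theorem io_pr {T : Finset (Fin (n + 1))} (h : Fin.last n ∉ T) : io (pr T) = T := by
  ext k
  induction k using Fin.lastCases with
  | last => exact ⟨fun h' => absurd h' (last_notMem_io _), fun h' => absurd h' h⟩
  | cast k => rw [mem_io]; simp [pr]

theorem io_pr' {T : Finset (Fin (n + 1))} (h : Fin.last n ∈ T) :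
    insert (Fin.last n) (io (pr T)) = T := by
  ext k
  induction k using Fin.lastCases with
  | last => simp [h]
  | cast k =>
    rw [mem_insert, mem_io]
    simp only [pr, mem_filter, mem_univ, true_and, or_iff_right_iff_imp]
    intro h
    exact absurd h (Fin.castSucc_lt_last k).ne

theorem card_io (T : Finset (Fin n)) : (io T).card = T.card := by simp [io]

theorem card_io' (T : Finset (Fin n)) : (insert (Fin.last n) (io T)).card = T.card + 1 := by
  rw [Finset.card_insert_of_notMem (last_notMem_io T), card_io]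

theorem io_insert (t : Fin n) (T : Finset (Fin n)) : io (insert t T) = insert t.castSucc (io T) := by
  ext k
  induction k using Fin.lastCases with
  | last =>
    simp only [mem_insert, last_notMem_io, false_iff, or_false]
    exact fun h => absurd h.symm (Fin.castSucc_lt_last t).ne
  | cast k => simp [mem_io]

theorem io_mono {S T : Finset (Fin n)} : io S ⊆ io T ↔ S ⊆ T := by
  simp [io]

theorem ep_io (R : Type*) [CommRing R] (t : Fin n) (T : Finset (Fin n)) :
    ep R t.castSucc (io T) = ep R t T := by
  rw [ep, ep]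
  congr 1
  have : (io T).filter (· < t.castSucc) = io (T.filter (· < t)) := by
    ext k
    induction k using Fin.lastCases with
    | last => simp [last_notMem_io]
    | cast k => simp [mem_io]
  rw [this, card_io]

theorem ep_io' (R : Type*) [CommRing R] (t : Fin n) (T : Finset (Fin n)) :
    ep R t.castSucc (insert (Fin.last n) (io T)) = ep R t T := by
  rw [ep_insert_of_gt, ep_io]
  exact not_lt.2 (Fin.castSucc_lt_last t).le

theorem ep_last (R : Type*) [CommRing R] (T : Finset (Fin n)) :
    ep R (Fin.last n) (io T) = (-1) ^ T.card := by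
  rw [ep, Finset.filter_true_of_mem, card_io]
  intro x hx
  induction x using Fin.lastCases with
  | last => exact absurd hx (last_notMem_io T)
  | cast k => exact Fin.castSucc_lt_last k

section

variable (K : Type*) [Field K]

/-- Restriction to the subsets without the last vertex. -/
def r0 : (Finset (Fin (n + 1)) → K) →ₗ[K] (Finset (Fin n) → K) where
  toFun z := fun T => z (io T)
  map_add' _ _ := rfl
  map_smul' _ _ := rfl

/-- Restriction to the subsets with the last vertex. -/
def r1 : (Finset (Fin (n + 1)) → K) →ₗ[K] (Finset (Fin n) → K) where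
  toFun z := fun T => z (insert (Fin.last n) (io T))
  map_add' _ _ := rfl
  map_smul' _ _ := rfl

/-- Assemble a chain from its two parts. -/
def as (y z : Finset (Fin n) → K) (T : Finset (Fin (n + 1))) : K :=
  if Fin.last n ∈ T then z (pr T) else y (pr T)

theorem r0_as (y z : Finset (Fin n) → K) : r0 K (as K y z) = y := by
  funext T
  simp only [r0, as, LinearMap.coe_mk, AddHom.coe_mk]
  rw [if_neg (last_notMem_io T), pr_io]

theorem r1_as (y z : Finset (Fin n) → K) : r1 K (as K y z) = z := by
  funext T
  simp only [r1, as, LinearMap.coe_mk, AddHom.coe_mk]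
  rw [if_pos (Finset.mem_insert_self _ _), pr_insert]

theorem ext_r {y z : Finset (Fin (n + 1)) → K} (h0 : r0 K y = r0 K z) (h1 : r1 K y = r1 K z) :
    y = z := by
  funext T
  by_cases h : Fin.last n ∈ T
  · have := congrFun h1 (pr T)
    simp only [r1, LinearMap.coe_mk, AddHom.coe_mk] at this
    rwa [io_pr' h] at this
  · have := congrFun h0 (pr T)
    simp only [r0, LinearMap.coe_mk, AddHom.coe_mk] at this
    rwa [io_pr h] at this

/-- The sign operator. -/
def sg (z : Finset (Fin n) → K) : Finset (Fin n) → K := fun T => (-1) ^ T.card * z T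

theorem compl_io (T : Finset (Fin n)) : (univ \ io T : Finset (Fin (n + 1))) =
    insert (Fin.last n) (io (univ \ T)) := by
  ext k
  induction k using Fin.lastCases with
  | last => simp [last_notMem_io]
  | cast k =>
    rw [mem_insert, mem_io, mem_sdiff, mem_io]
    simp only [mem_univ, true_and, mem_sdiff]
    constructor
    · exact Or.inr
    · rintro (h | h)
      · exact absurd h (Fin.castSucc_lt_last k).ne
      · exact h

theorem compl_io' (T : Finset (Fin n)) :
    (univ \ insert (Fin.last n) (io T) : Finset (Fin (n + 1))) = io (univ \ T) := by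
  ext k
  induction k using Fin.lastCases with
  | last => simp [last_notMem_io]
  | cast k =>
    rw [mem_io, mem_sdiff, mem_insert, mem_io]
    simp only [mem_univ, true_and, mem_sdiff, not_or, and_iff_right_iff_imp]
    exact fun _ => (Fin.castSucc_lt_last k).ne

theorem r0_bd (z : Finset (Fin (n + 1)) → K) :
    r0 K (bd K (n + 1) z) = bd K n (r0 K z) + sg K (r1 K z) := by
  funext T
  simp only [r0, r1, sg, LinearMap.coe_mk, AddHom.coe_mk, Pi.add_apply, bd_apply]
  rw [compl_io, Finset.sum_insert (last_notMem_io _), ep_last, add_comm]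
  congr 1
  rw [io, Finset.sum_map]
  refine Finset.sum_congr rfl fun t _ => ?_
  rw [Fin.coe_castSuccEmb, ep_io, io_insert]

theorem r1_bd (z : Finset (Fin (n + 1)) → K) :
    r1 K (bd K (n + 1) z) = bd K n (r1 K z) := by
  funext T
  simp only [r1, LinearMap.coe_mk, AddHom.coe_mk, bd_apply]
  rw [compl_io', io, Finset.sum_map]
  refine Finset.sum_congr rfl fun t _ => ?_
  rw [Fin.coe_castSuccEmb, ep_io', io_insert, Finset.insert_comm]

theorem sg_sg (z : Finset (Fin n) → K) : sg K (sg K z) = z := by
  funext T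
  simp only [sg]
  rw [← mul_assoc, ← mul_pow]; simp

theorem bd_sg (z : Finset (Fin n) → K) : bd K n (sg K z) = - sg K (bd K n z) := by
  funext T
  simp only [Pi.neg_apply, sg, bd_apply, Finset.mul_sum]
  rw [← Finset.sum_neg_distrib]
  refine Finset.sum_congr rfl fun t ht => ?_
  have ht' : t ∉ T := by simpa using ht
  rw [Finset.card_insert_of_notMem ht', pow_succ]; ring

theorem sg_mem {P : Finset (Fin n) → Prop} {i : ℕ} {z : Finset (Fin n) → K} (hz : z ∈ sc K P i) :
    sg K z ∈ sc K P i := by
  intro T hT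
  exact hz T (right_ne_zero_of_mul hT)

/-- The deletion of the last vertex. -/
def dl (P : Finset (Fin (n + 1)) → Prop) (T : Finset (Fin n)) : Prop := P (io T)

/-- The link of the last vertex. -/
def lk (P : Finset (Fin (n + 1)) → Prop) (T : Finset (Fin n)) : Prop :=
  P (insert (Fin.last n) (io T))

theorem Down.dl {P : Finset (Fin (n + 1)) → Prop} (h : Down P) : Down (dl P) :=
  fun _ _ hT hS => h _ _ hT (io_mono.2 hS)

theorem Down.lk {P : Finset (Fin (n + 1)) → Prop} (h : Down P) : Down (lk P) :=
  fun _ _ hT hS => h _ _ hT (Finset.insert_subset_insert _ (io_mono.2 hS))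

theorem lk_dl {P : Finset (Fin (n + 1)) → Prop} (h : Down P) {T : Finset (Fin n)} (hT : lk P T) :
    dl P T := h _ _ hT (Finset.subset_insert _ _)

theorem r0_mem {P : Finset (Fin (n + 1)) → Prop} {i : ℕ} {z : Finset (Fin (n + 1)) → K}
    (hz : z ∈ sc K P i) : r0 K z ∈ sc K (dl P) i := by
  intro T hT
  have := hz _ hT
  rw [card_io] at this
  exact this

theorem r1_mem {P : Finset (Fin (n + 1)) → Prop} {i : ℕ} {z : Finset (Fin (n + 1)) → K}
    (hz : z ∈ sc K P (i + 1)) : r1 K z ∈ sc K (lk P) i := by
  intro T hT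
  have := hz _ hT
  rw [card_io'] at this
  exact ⟨this.1, by omega⟩

theorem as_mem {P : Finset (Fin (n + 1)) → Prop} {i : ℕ} {y z : Finset (Fin n) → K}
    (hy : y ∈ sc K (dl P) (i + 1)) (hz : z ∈ sc K (lk P) i) : as K y z ∈ sc K P (i + 1) := by
  intro T hT
  rw [as] at hT
  split_ifs at hT with h
  · have h1 := hz _ hT
    rw [lk, io_pr' h] at h1
    refine ⟨h1.1, ?_⟩
    rw [← io_pr' h, card_io', h1.2]
  · have h1 := hy _ hT
    rw [dl, io_pr h] at h1
    refine ⟨h1.1, ?_⟩
    rw [← io_pr h, card_io, h1.2]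

/-- Chains on `P` are pairs of chains. -/
noncomputable def prodEquiv (P : Finset (Fin (n + 1)) → Prop) (i : ℕ) :
    ↥(sc K P (i + 1)) ≃ₗ[K] ↥(sc K (dl P) (i + 1)) × ↥(sc K (lk P) i) where
  toFun z := (⟨r0 K z.1, r0_mem K z.2⟩, ⟨r1 K z.1, r1_mem K z.2⟩)
  map_add' y z := by ext <;> simp
  map_smul' c z := by ext <;> simp
  invFun p := ⟨as K p.1.1 p.2.1, as_mem K p.1.2 p.2.2⟩
  left_inv z := by
    apply Subtype.ext
    exact ext_r K (r0_as K _ _) (r1_as K _ _)
  right_inv p := by
    ext T
    · simp [r0_as]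
    · simp [r1_as]

theorem nf_succ (P : Finset (Fin (n + 1)) → Prop) (i : ℕ) :
    nf P (i + 1) = nf (dl P) (i + 1) + nf (lk P) i := by
  rw [← finrank_sc ℚ, LinearEquiv.finrank_eq (prodEquiv ℚ P i), Module.finrank_prod, finrank_sc,
    finrank_sc]

theorem nf_dl_zero (P : Finset (Fin (n + 1)) → Prop) : nf P 0 = nf (dl P) 0 := by
  rw [nf, nf]
  refine Nat.card_congr ⟨fun T => ⟨∅, ?_, rfl⟩, fun T => ⟨∅, ?_, rfl⟩, ?_, ?_⟩
  · have := T.2
    rw [Finset.card_eq_zero] at this
    show P (io ∅)
    have h2 : io (∅ : Finset (Fin n)) = ∅ := by simp [io]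
    have h3 := this.1
    rw [this.2] at h3
    rw [h2]; exact h3
  · have := T.2
    rw [Finset.card_eq_zero] at this
    have h1 := this.1
    rw [this.2] at h1
    have h2 : io (∅ : Finset (Fin n)) = ∅ := by simp [io]
    rwa [dl, h2] at h1
  · intro T
    apply Subtype.ext
    exact (Finset.card_eq_zero.1 T.2.2).symm
  · intro T
    apply Subtype.ext
    exact (Finset.card_eq_zero.1 T.2.2).symm

/-- The cycles of `P` correspond to the chains of the deletion with boundary in the link. -/
theorem finrank_cycles {P : Finset (Fin (n + 1)) → Prop} (i : ℕ) :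
    Module.finrank K ↥(sc K P (i + 1) ⊓ LinearMap.ker (bd K (n + 1))) =
      Module.finrank K ↥(sc K (dl P) (i + 1) ⊓ (sc K (lk P) i).comap (bd K n)) := by
  have e : ↥(sc K P (i + 1) ⊓ LinearMap.ker (bd K (n + 1))) ≃ₗ[K]
      ↥(sc K (dl P) (i + 1) ⊓ (sc K (lk P) i).comap (bd K n)) :=
    { toFun := fun z => ⟨r0 K z.1, r0_mem K z.2.1, by
        have h1 := r0_bd K z.1
        have h2 : bd K (n + 1) z.1 = 0 := z.2.2
        rw [h2, map_zero] at h1
        have h3 : bd K n (r0 K z.1) = - sg K (r1 K z.1) := (eq_neg_of_add_eq_zero_left h1.symm)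
        rw [SetLike.mem_coe, Submodule.mem_comap, h3]
        exact Submodule.neg_mem _ (sg_mem K (r1_mem K z.2.1))⟩
      map_add' := fun y z => by ext; simp
      map_smul' := fun c z => by ext; simp
      invFun := fun y => ⟨as K y.1 (- sg K (bd K n y.1)), as_mem K y.2.1
          (Submodule.neg_mem _ (sg_mem K y.2.2)), by
        rw [SetLike.mem_coe, LinearMap.mem_ker]
        apply ext_r K
        · rw [r0_bd, r0_as, r1_as, map_zero]
          have : sg K (- sg K (bd K n y.1)) = - bd K n y.1 := by
            have h1 : sg K (- sg K (bd K n y.1)) = - sg K (sg K (bd K n y.1)) := by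
              funext T; simp [sg]
            rw [h1, sg_sg]
          rw [this, add_neg_cancel]
        · rw [r1_bd, r1_as, map_neg, bd_sg, bd_bd, map_zero]
          funext T; simp [sg]⟩
      left_inv := fun z => by
        apply Subtype.ext
        apply ext_r K
        · exact r0_as K _ _
        · have h0 := r1_as K (r0 K z.1) (- sg K (bd K n (r0 K z.1)))
          have h1 := r0_bd K z.1
          have h2 : bd K (n + 1) z.1 = 0 := z.2.2
          rw [h2, map_zero] at h1
          have h3 : bd K n (r0 K z.1) = - sg K (r1 K z.1) := (eq_neg_of_add_eq_zero_left h1.symm)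
          show r1 K (as K (r0 K z.1) (- sg K (bd K n (r0 K z.1)))) = r1 K z.1
          rw [h0, h3]
          have h4 : sg K (- sg K (r1 K z.1)) = - sg K (sg K (r1 K z.1)) := by
            funext T; simp [sg]
          rw [h4, sg_sg, neg_neg]
      right_inv := fun y => by
        apply Subtype.ext
        exact r0_as K _ _ }
  exact LinearEquiv.finrank_eq e

/-- Ranks when the deletion has no homology in degree `i`. -/
theorem rk_succ {P : Finset (Fin (n + 1)) → Prop} (hP : Down P) {i : ℕ}
    (h : hm K (dl P) i = 0) : rk K P (i + 1) = rk K (dl P) (i + 1) + rk K (lk P) i := by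
  have h1 := rank_nullity K P (i + 1)
  rw [finrank_cycles, nf_succ] at h1
  have h2 := rank_nullity K (dl P) (i + 1)
  have h3 := rank_nullity K (lk P) i
  have h4 : Module.finrank K ↥(sc K (dl P) (i + 1) ⊓ (sc K (lk P) i).comap (bd K n)) =
      Module.finrank K ↥(sc K (dl P) (i + 1) ⊓ LinearMap.ker (bd K n)) +
      Module.finrank K ↥(sc K (lk P) i ⊓ LinearMap.ker (bd K n)) := by
    have h5 := LinearMap.finrank_range_add_finrank_ker ((bd K n).domRestrict
      (sc K (dl P) (i + 1) ⊓ (sc K (lk P) i).comap (bd K n)))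
    rw [← h5, add_comm]
    congr 1
    · rw [LinearMap.ker_domRestrict]
      have := Submodule.finrank_map_subtype_eq
        (sc K (dl P) (i + 1) ⊓ (sc K (lk P) i).comap (bd K n))
        (Submodule.comap (sc K (dl P) (i + 1) ⊓ (sc K (lk P) i).comap (bd K n)).subtype
          (LinearMap.ker (bd K n)))
      rw [← this, Submodule.map_comap_subtype]
      have heq : (sc K (dl P) (i + 1) ⊓ (sc K (lk P) i).comap (bd K n)) ⊓ LinearMap.ker (bd K n) =
          sc K (dl P) (i + 1) ⊓ LinearMap.ker (bd K n) := by
        ext z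
        simp only [Submodule.mem_inf, Submodule.mem_comap, LinearMap.mem_ker]
        constructor
        · rintro ⟨⟨h6, -⟩, h7⟩
          exact ⟨h6, h7⟩
        · rintro ⟨h6, h7⟩
          exact ⟨⟨h6, by rw [h7]; exact Submodule.zero_mem _⟩, h7⟩
      rw [heq]
    · rw [LinearMap.range_domRestrict]
      have heq : Submodule.map (bd K n) (sc K (dl P) (i + 1) ⊓ (sc K (lk P) i).comap (bd K n)) =
          sc K (lk P) i ⊓ LinearMap.ker (bd K n) := by
        ext z
        constructor
        · rintro ⟨y, ⟨hy1, hy2⟩, rfl⟩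
          exact ⟨hy2, by rw [SetLike.mem_coe, LinearMap.mem_ker, bd_bd]⟩
        · rintro ⟨hz1, hz2⟩
          have h6 := exact_of_hm K hP.dl h
          have h7 : z ∈ (sc K (dl P) (i + 1)).map (bd K n) := by
            rw [h6]
            exact ⟨fun T hT => ⟨lk_dl hP (hz1 T hT).1, (hz1 T hT).2⟩, hz2⟩
          obtain ⟨y, hy, rfl⟩ := h7
          exact ⟨y, ⟨hy, hz1⟩, rfl⟩
      rw [heq]
  omega

/-- If the deletion is acyclic in degrees `i` and `i+1`, the homology is that of the link. -/
theorem hm_succ {P : Finset (Fin (n + 1)) → Prop} (hP : Down P) {i : ℕ}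
    (h : hm K (dl P) i = 0) (h' : hm K (dl P) (i + 1) = 0) :
    hm K P (i + 1) = hm K (lk P) i := by
  have h1 := rk_succ K hP h
  have h2 := rk_succ K hP h'
  have h3 := hm_add K hP (i + 1)
  have h4 := hm_add K hP.dl (i + 1)
  have h5 := hm_add K hP.lk i
  have h6 := nf_succ P i
  omega

theorem hm_zero_of_dl {P : Finset (Fin (n + 1)) → Prop} (hP : Down P)
    (h : hm K (dl P) 0 = 0) : hm K P 0 = 0 := by
  have h1 := rk_succ K hP h
  have h3 := hm_add K hP 0
  have h4 := hm_add K hP.dl 0
  have h6 := nf_dl_zero P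
  have h7 := rk_zero K P
  have h8 := rk_zero K (dl P)
  simp only [zero_add] at h1 h3 h4
  omega

/-- If the link is void, the homology is that of the deletion. -/
theorem rk_of_lk_void {P : Finset (Fin (n + 1)) → Prop} (hP : Down P) (h : ¬ lk P ∅) (i : ℕ) :
    rk K P i = rk K (dl P) i := by
  cases i with
  | zero => rw [rk_zero, rk_zero]
  | succ i =>
    have hv : ∀ T, ¬ lk P T := fun T hT => h (hP.lk _ _ hT (Finset.empty_subset _))
    have h0 : sc K (lk P) i = ⊥ := by
      rw [eq_bot_iff]
      intro z hz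
      rw [Submodule.mem_bot]
      funext T
      by_contra h'
      exact hv T (hz T h').1
    have h1 := rank_nullity K P (i + 1)
    rw [finrank_cycles, nf_succ, h0] at h1
    have h2 := rank_nullity K (dl P) (i + 1)
    have h3 : nf (lk P) i = 0 := by
      rw [← finrank_sc K, h0, finrank_bot]
    have h4 : (⊥ : Submodule K (Finset (Fin n) → K)).comap (bd K n) = LinearMap.ker (bd K n) := rfl
    rw [h4] at h1
    omega

theorem hm_of_lk_void {P : Finset (Fin (n + 1)) → Prop} (hP : Down P) (h : ¬ lk P ∅) (i : ℕ) :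
    hm K P i = hm K (dl P) i := by
  have h1 := rk_of_lk_void K hP h i
  have h2 := rk_of_lk_void K hP h (i + 1)
  have h3 := hm_add K hP i
  have h4 := hm_add K hP.dl i
  have h5 : nf P i = nf (dl P) i := by
    cases i with
    | zero => exact nf_dl_zero P
    | succ i =>
      rw [nf_succ]
      have : nf (lk P) i = 0 := by
        rw [nf]
        have : IsEmpty {T : Finset (Fin n) // lk P T ∧ T.card = i} :=
          ⟨fun T => h (hP.lk _ _ T.2.1 (Finset.empty_subset _))⟩
        exact Nat.card_of_isEmpty
      omega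
  omega

end

end Pool.Agent.R690.Kos
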