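import Pool.Agent.R690.Kos.Cert

set_option autoImplicit false

/-!
# Strands of ideals in `n + 1` variables, layer by layer
-/

namespace Pool.Agent.R690.Kos

open Finset

variable {n : ℕ}

/-- The layer of the last variable: `w` is at least some exponent in `G` whose last entry is at
most `p`. -/
def Ly (G : Set (Fin (n + 1) →₀ ℕ)) (p : ℕ) (w : Fin n → ℕ) : Prop :=
  ∃ g ∈ G, g (Fin.last n) ≤ p ∧ ∀ k : Fin n, g k.castSucc ≤ w k

/-- The upper Koszul complex of an up-set at `w`. -/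
def Kz (U : (Fin n → ℕ) → Prop) (w : Fin n → ℕ) (T : Finset (Fin n)) : Prop :=
  (∀ k ∈ T, 1 ≤ w k) ∧ U (fun k => w k - if k ∈ T then 1 else 0)

theorem eT_io (T : Finset (Fin n)) (k : Fin n) : eT (io T) k.castSucc = if k ∈ T then 1 else 0 := by
  rw [eT_apply]; simp only [mem_io]

theorem eT_io_last (T : Finset (Fin n)) : eT (io T) (Fin.last n) = 0 := by
  rw [eT_apply, if_neg (last_notMem_io T)]

theorem eT_io' (T : Finset (Fin n)) (k : Fin n) :
    eT (insert (Fin.last n) (io T)) k.castSucc = if k ∈ T then 1 else 0 := by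
  rw [eT_apply]
  have : k.castSucc ∈ insert (Fin.last n) (io T) ↔ k ∈ T := by
    rw [mem_insert, mem_io, or_iff_right (Fin.castSucc_lt_last k).ne]
  simp only [this]

theorem eT_io_last' (T : Finset (Fin n)) : eT (insert (Fin.last n) (io T)) (Fin.last n) = 1 := by
  rw [eT_apply, if_pos (Finset.mem_insert_self _ _)]

theorem le_iff_last {u v : Fin (n + 1) →₀ ℕ} :
    u ≤ v ↔ u (Fin.last n) ≤ v (Fin.last n) ∧ ∀ k : Fin n, u k.castSucc ≤ v k.castSucc := by
  constructor
  · intro h; exact ⟨h _, fun k => h _⟩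
  · rintro ⟨h1, h2⟩ k
    induction k using Fin.lastCases with
    | last => exact h1
    | cast k => exact h2 k

theorem dl_Fc (G : Set (Fin (n + 1) →₀ ℕ)) (a : Fin (n + 1) →₀ ℕ) :
    dl (Fc G a) = Kz (Ly G (a (Fin.last n))) (fun k => a k.castSucc) := by
  funext T
  apply propext
  constructor
  · rintro ⟨g, hg, h⟩
    rw [le_iff_last, Finsupp.coe_add, Pi.add_apply, eT_io_last] at h
    have h2 : ∀ k : Fin n, g k.castSucc + (if k ∈ T then 1 else 0) ≤ a k.castSucc := by
      intro k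
      have := h.2 k
      rwa [Pi.add_apply, eT_io] at this
    refine ⟨fun k hk => ?_, g, hg, h.1, fun k => ?_⟩
    · have := h2 k
      rw [if_pos hk] at this
      beta_reduce
      omega
    · have := h2 k
      beta_reduce
      omega
  · rintro ⟨h1, g, hg, h2, h3⟩
    refine ⟨g, hg, ?_⟩
    rw [le_iff_last, Finsupp.coe_add, Pi.add_apply, eT_io_last]
    refine ⟨h2, fun k => ?_⟩
    rw [Pi.add_apply, eT_io]
    have h4 := h3 k
    by_cases hk : k ∈ T
    · have := h1 k hk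
      beta_reduce at this h4
      rw [if_pos hk] at h4 ⊢
      omega
    · beta_reduce at h4
      rw [if_neg hk] at h4 ⊢
      omega

theorem lk_Fc {G : Set (Fin (n + 1) →₀ ℕ)} {a : Fin (n + 1) →₀ ℕ} (ha : 1 ≤ a (Fin.last n)) :
    lk (Fc G a) = Kz (Ly G (a (Fin.last n) - 1)) (fun k => a k.castSucc) := by
  funext T
  apply propext
  constructor
  · rintro ⟨g, hg, h⟩
    rw [le_iff_last, Finsupp.coe_add, Pi.add_apply, eT_io_last'] at h
    have h2 : ∀ k : Fin n, g k.castSucc + (if k ∈ T then 1 else 0) ≤ a k.castSucc := by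
      intro k
      have := h.2 k
      rwa [Pi.add_apply, eT_io'] at this
    refine ⟨fun k hk => ?_, g, hg, by omega, fun k => ?_⟩
    · have := h2 k
      rw [if_pos hk] at this
      beta_reduce
      omega
    · have := h2 k
      beta_reduce
      omega
  · rintro ⟨h1, g, hg, h2, h3⟩
    refine ⟨g, hg, ?_⟩
    rw [le_iff_last, Finsupp.coe_add, Pi.add_apply, eT_io_last']
    refine ⟨by omega, fun k => ?_⟩
    rw [Pi.add_apply, eT_io']
    have h4 := h3 k
    by_cases hk : k ∈ T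
    · have := h1 k hk
      beta_reduce at this h4
      rw [if_pos hk] at h4 ⊢
      omega
    · beta_reduce at h4
      rw [if_neg hk] at h4 ⊢
      omega

theorem lk_Fc_zero {G : Set (Fin (n + 1) →₀ ℕ)} {a : Fin (n + 1) →₀ ℕ}
    (ha : a (Fin.last n) = 0) (T : Finset (Fin n)) : ¬ lk (Fc G a) T := by
  rintro ⟨g, hg, h⟩
  rw [le_iff_last, Finsupp.coe_add, Pi.add_apply, eT_io_last'] at h
  omega

/-- A shifted squarefree up-set. -/
def Rj (c : Fin n → ℕ) (F : Finset (Finset (Fin n))) (w : Fin n → ℕ) : Prop :=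
  (∀ k, c k ≤ w k) ∧ Xof F (univ.filter fun k => c k < w k)

theorem Kz_empty (U : (Fin n → ℕ) → Prop) (w : Fin n → ℕ) : Kz U w ∅ ↔ U w := by
  simp [Kz]

theorem Kz_sq {c w : Fin n → ℕ} (F : Finset (Finset (Fin n)))
    (h : ∀ k, c k ≤ w k ∧ w k ≤ c k + 1) :
    Kz (Rj c F) w = Lk F (univ.filter fun k => c k < w k) := by
  funext T
  apply propext
  have key : ∀ T : Finset (Fin n), T ⊆ (univ.filter fun k => c k < w k) →
      (univ.filter fun k => c k < w k - if k ∈ T then 1 else 0) =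
      (univ.filter fun k => c k < w k) \ T := by
    intro T hT
    ext k
    simp only [mem_filter, mem_univ, true_and, mem_sdiff]
    have h1 := h k
    by_cases hk : k ∈ T
    · rw [if_pos hk]
      constructor
      · intro h2; omega
      · intro h2; exact absurd hk h2.2
    · rw [if_neg hk]
      constructor
      · intro h2; exact ⟨by omega, hk⟩
      · intro h2; omega
  constructor
  · rintro ⟨h1, h2, h3⟩
    have hT : T ⊆ (univ.filter fun k => c k < w k) := by
      intro k hk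
      have := h2 k
      have h4 := h1 k hk
      beta_reduce at this
      rw [if_pos hk] at this
      simp only [mem_filter, mem_univ, true_and]
      omega
    exact ⟨hT, by rwa [key T hT] at h3⟩
  · rintro ⟨hT, h3⟩
    refine ⟨fun k hk => ?_, fun k => ?_, by rwa [key T hT]⟩
    · have := hT hk
      simp only [mem_filter, mem_univ, true_and] at this
      omega
    · beta_reduce
      by_cases hk : k ∈ T
      · have := hT hk
        simp only [mem_filter, mem_univ, true_and] at this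
        rw [if_pos hk]; omega
      · rw [if_neg hk]
        have := (h k).1
        omega

theorem Kz_cone {c w : Fin n → ℕ} (F : Finset (Finset (Fin n))) {j : Fin n} (h : c j + 2 ≤ w j)
    (T : Finset (Fin n)) (hT : Kz (Rj c F) w T) : Kz (Rj c F) w (insert j T) := by
  obtain ⟨h1, h2, h3⟩ := hT
  refine ⟨fun k hk => ?_, fun k => ?_, ?_⟩
  · rcases Finset.mem_insert.1 hk with h4 | h4
    · subst h4; omega
    · exact h1 k h4
  · beta_reduce
    by_cases hk : k = j
    · subst hk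
      rw [if_pos (Finset.mem_insert_self _ _)]; omega
    · have h5 := h2 k
      beta_reduce at h5
      have h6 : ((if k ∈ insert j T then 1 else 0 : ℕ) = if k ∈ T then 1 else 0) := by
        by_cases hkT : k ∈ T
        · rw [if_pos hkT, if_pos (Finset.mem_insert_of_mem hkT)]
        · rw [if_neg hkT, if_neg]; simp [hk, hkT]
      omega
  · refine h3.mono ?_
    intro k hk
    simp only [mem_filter, mem_univ, true_and] at hk ⊢
    by_cases hkj : k = j
    · subst hkj
      rw [if_pos (Finset.mem_insert_self _ _)]; omega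
    · have h6 : ((if k ∈ insert j T then 1 else 0 : ℕ) = if k ∈ T then 1 else 0) := by
        by_cases hkT : k ∈ T
        · rw [if_pos hkT, if_pos (Finset.mem_insert_of_mem hkT)]
        · rw [if_neg hkT, if_neg]; simp [hkj, hkT]
      omega

theorem Kz_down (c w : Fin n → ℕ) (F : Finset (Finset (Fin n))) : Down (Kz (Rj c F) w) := by
  rintro S T ⟨h1, h2, h3⟩ hST
  have key : ∀ k, (if k ∈ S then 1 else 0 : ℕ) ≤ if k ∈ T then 1 else 0 := by
    intro k
    by_cases hS : k ∈ S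
    · rw [if_pos hS, if_pos (hST hS)]
    · rw [if_neg hS]; exact Nat.zero_le _
  refine ⟨fun k hk => h1 k (hST hk), fun k => ?_, h3.mono ?_⟩
  · have := h2 k; have := key k; beta_reduce at *; omega
  · intro k hk
    simp only [mem_filter, mem_univ, true_and] at hk ⊢
    have := key k; omega

theorem hm_Kz_sq (K : Type*) [Field K] {c w : Fin n → ℕ} (F : Finset (Finset (Fin n)))
    (h : ∀ k, c k ≤ w k ∧ w k ≤ c k + 1) (i : ℕ) :
    hm K (Kz (Rj c F) w) i = hm K (Lk F (univ.filter fun k => c k < w k)) i := by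
  rw [Kz_sq F h]

theorem hm_Kz_zero (K : Type*) [Field K] {c w : Fin n → ℕ} (F : Finset (Finset (Fin n)))
    (h : ¬ ∀ k, c k ≤ w k ∧ w k ≤ c k + 1) (i : ℕ) :
    hm K (Kz (Rj c F) w) i = 0 := by
  by_cases hR : Rj c F w
  · push Not at h
    obtain ⟨j, hj⟩ := h
    have := hj (hR.1 j)
    exact hm_cone K j (Kz_cone F (by omega)) i
  · exact hm_void K (Kz_down c w F) (by rwa [Kz_empty]) i

/-- Field independence for the complexes of a shifted squarefree up-set. -/
theorem hm_Kz_congr {K K' : Type*} [Field K] [Field K'] {c w : Fin n → ℕ}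
    (F : Finset (Finset (Fin n))) (hF : ∀ W i, hm K (Lk F W) i = hm K' (Lk F W) i) (i : ℕ) :
    hm K (Kz (Rj c F) w) i = hm K' (Kz (Rj c F) w) i := by
  by_cases h : ∀ k, c k ≤ w k ∧ w k ≤ c k + 1
  · rw [hm_Kz_sq K F h, hm_Kz_sq K' F h, hF]
  · rw [hm_Kz_zero K F h, hm_Kz_zero K' F h]

/-- A layered ideal: positions `j` with shifts `c j` and squarefree types `F j`. -/
structure Lay (G : Set (Fin (n + 1) →₀ ℕ)) (N : ℕ) (V : ℕ → Prop) (c : ℕ → Fin n → ℕ)
    (F : ℕ → Finset (Finset (Fin n))) : Prop where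
  pos : 0 < n
  ly : ∀ p w, Ly G p w ↔ ∃ j, V j ∧ N ≤ p + j ∧ Rj (c j) (F j) w
  mono : ∀ j j', V j → V j' → j < j' → ∀ k, c j k + 2 ≤ c j' k
  top : ∀ j, V j → Xof (F j) univ

/-- `j` is the least position of layer `p`. -/
def IsMin (N : ℕ) (V : ℕ → Prop) (p j : ℕ) : Prop :=
  V j ∧ N ≤ p + j ∧ ∀ j', V j' → N ≤ p + j' → j ≤ j'

theorem exists_isMin {N : ℕ} {V : ℕ → Prop} {p : ℕ} (h : ∃ j, V j ∧ N ≤ p + j) :
    ∃ j, IsMin N V p j := by
  classical
  exact ⟨Nat.find h, (Nat.find_spec h).1, (Nat.find_spec h).2, fun j' h1 h2 =>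
    Nat.find_min' h ⟨h1, h2⟩⟩

variable {G : Set (Fin (n + 1) →₀ ℕ)} {N : ℕ} {V : ℕ → Prop} {c : ℕ → Fin n → ℕ}
    {F : ℕ → Finset (Finset (Fin n))}

theorem Lay.ly_min (h : Lay G N V c F) {p j : ℕ} (hj : IsMin N V p j) :
    Ly G p = Rj (c j) (F j) := by
  funext w
  apply propext
  rw [h.ly]
  constructor
  · rintro ⟨j', h1, h2, h3⟩
    rcases (hj.2.2 j' h1 h2).eq_or_lt with h4 | h4
    · rw [h4]; exact h3
    · have h5 := h.mono j j' hj.1 h1 h4
      refine ⟨fun k => ?_, ?_⟩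
      · have := h5 k; have := h3.1 k; omega
      · have h6 : (univ.filter fun k => c j k < w k) = univ := by
          refine Finset.filter_true_of_mem fun k _ => ?_
          have := h5 k; have := h3.1 k; omega
        rw [h6]; exact h.top j hj.1
  · intro h1
    exact ⟨j, hj.1, hj.2.1, h1⟩

theorem Lay.ly_none (h : Lay G N V c F) {p : ℕ} (hj : ¬ ∃ j, V j ∧ N ≤ p + j) (w : Fin n → ℕ) :
    ¬ Ly G p w := by
  rw [h.ly]
  rintro ⟨j, h1, h2, -⟩
  exact hj ⟨j, h1, h2⟩

/-- The three kinds of strands. -/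
theorem Lay.cases (h : Lay G N V c F) (a : Fin (n + 1) →₀ ℕ) :
    (¬ Fc G a ∅) ∨ (∀ T, Fc G a T → Fc G a (insert (Fin.last n) T)) ∨
    (¬ lk (Fc G a) ∅ ∧ ∃ j, IsMin N V (a (Fin.last n)) j ∧
      dl (Fc G a) = Kz (Rj (c j) (F j)) (fun k => a k.castSucc)) ∨
    (1 ≤ a (Fin.last n) ∧ ∃ j, IsMin N V (a (Fin.last n) - 1) j ∧ 0 < j ∧
      (∃ k0, ∀ T, dl (Fc G a) T → dl (Fc G a) (insert k0 T)) ∧
      lk (Fc G a) = Kz (Rj (c j) (F j)) (fun k => a k.castSucc)) := by
  by_cases h0 : ∃ j, V j ∧ N ≤ a (Fin.last n) + j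
  swap
  · left
    intro h1
    have h2 : dl (Fc G a) ∅ := by
      rw [dl]; simpa [io] using h1
    rw [dl_Fc, Kz_empty] at h2
    exact h.ly_none h0 _ h2
  obtain ⟨j0, hj0⟩ := exists_isMin h0
  have hdl := dl_Fc G a
  rw [h.ly_min hj0] at hdl
  rcases Nat.eq_zero_or_pos (a (Fin.last n)) with hp | hp
  · right; right; left
    exact ⟨lk_Fc_zero hp ∅, j0, hj0, hdl⟩
  by_cases h1 : ∃ j, V j ∧ N ≤ (a (Fin.last n) - 1) + j
  swap
  · right; right; left
    refine ⟨?_, j0, hj0, hdl⟩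
    rw [lk_Fc hp, Kz_empty]
    exact h.ly_none h1 _
  obtain ⟨j1, hj1⟩ := exists_isMin h1
  have hlk := lk_Fc (G := G) hp
  rw [h.ly_min hj1] at hlk
  have h01 : j0 ≤ j1 := hj0.2.2 j1 hj1.1 (by have := hj1.2.1; omega)
  rcases h01.eq_or_lt with h2 | h2
  · right; left
    have h3 : dl (Fc G a) = lk (Fc G a) := by rw [hdl, hlk, h2]
    intro T hT
    by_cases hl : Fin.last n ∈ T
    · rwa [Finset.insert_eq_of_mem hl]
    · rw [← io_pr hl] at hT ⊢
      have h4 : dl (Fc G a) (pr T) := hT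
      rw [h3] at h4
      exact h4
  · by_cases h3 : Rj (c j1) (F j1) (fun k => a k.castSucc)
    · right; right; right
      refine ⟨hp, j1, hj1, by omega, ⟨⟨0, h.pos⟩, ?_⟩, hlk⟩
      rw [hdl]
      refine Kz_cone (F j0) ?_
      have h4 := h.mono j0 j1 hj0.1 hj1.1 h2 ⟨0, h.pos⟩
      exact h4.trans (h3.1 ⟨0, h.pos⟩)
    · right; right; left
      refine ⟨?_, j0, hj0, hdl⟩
      rw [hlk, Kz_empty]
      exact h3

/-- The last kind of strand, with explicit hypotheses. -/
theorem Lay.case_last (h : Lay G N V c F) {a : Fin (n + 1) →₀ ℕ} (hp : 1 ≤ a (Fin.last n))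
    {j0 j1 : ℕ} (hj0 : IsMin N V (a (Fin.last n)) j0) (hj1 : IsMin N V (a (Fin.last n) - 1) j1)
    (h01 : j0 < j1) (hR : Rj (c j1) (F j1) (fun k => a k.castSucc)) :
    (∃ k0, ∀ T, dl (Fc G a) T → dl (Fc G a) (insert k0 T)) ∧
      lk (Fc G a) = Kz (Rj (c j1) (F j1)) (fun k => a k.castSucc) := by
  have hdl := dl_Fc G a
  rw [h.ly_min hj0] at hdl
  have hlk := lk_Fc (G := G) hp
  rw [h.ly_min hj1] at hlk
  refine ⟨⟨⟨0, h.pos⟩, ?_⟩, hlk⟩
  rw [hdl]
  refine Kz_cone (F j0) ?_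
  have h4 := h.mono j0 j1 hj0.1 hj1.1 h01 ⟨0, h.pos⟩
  exact h4.trans (hR.1 ⟨0, h.pos⟩)

section

variable (K : Type*) [Field K]

/-- Homology of the last kind of strand. -/
theorem hm_last (P : Finset (Fin (n + 1)) → Prop) (hP : Down P)
    (hc : ∃ k0, ∀ T, dl P T → dl P (insert k0 T)) (i : ℕ) :
    hm K P (i + 1) = hm K (lk P) i ∧ hm K P 0 = 0 := by
  obtain ⟨k0, hk0⟩ := hc
  exact ⟨hm_succ K hP (hm_cone K k0 hk0 i) (hm_cone K k0 hk0 (i + 1)),
    hm_zero_of_dl K hP (hm_cone K k0 hk0 0)⟩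

/-- Field independence for layered ideals. -/
theorem Lay.hm_congr {K' : Type*} [Field K'] (h : Lay G N V c F)
    (hF : ∀ j, V j → ∀ W i, hm K (Lk (F j) W) i = hm K' (Lk (F j) W) i)
    (a : Fin (n + 1) →₀ ℕ) (i : ℕ) : hm K (Fc G a) i = hm K' (Fc G a) i := by
  have hd := Fc_down G a
  rcases h.cases a with h1 | h1 | ⟨h1, j, hj, h2⟩ | ⟨_, j, hj, _, h1, h2⟩
  · rw [hm_void K hd h1, hm_void K' hd h1]
  · rw [hm_cone K _ h1, hm_cone K' _ h1]
  · rw [hm_of_lk_void K hd h1, hm_of_lk_void K' hd h1, h2]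
    exact hm_Kz_congr (F j) (hF j hj.1) i
  · cases i with
    | zero => rw [(hm_last K _ hd h1 0).2, (hm_last K' _ hd h1 0).2]
    | succ i =>
      rw [(hm_last K _ hd h1 i).1, (hm_last K' _ hd h1 i).1, h2]
      exact hm_Kz_congr (F j) (hF j hj.1) i

end

end Pool.Agent.R690.Kos
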